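import Mathlib

/-!
# Digit-window additive functions modulo two

`ε m = ε (m / 2) + I m` where `I m` depends on `m` modulo `2 ^ (L' + 1)`.
-/

namespace Pool.Agent.H114.PC

/-- indicator of the residue class `c` modulo `2 ^ (L' + 1)` -/
def I (L' c m : ℕ) : ZMod 2 := if m % 2 ^ (L' + 1) = c then 1 else 0

/-- the recursion satisfied by the number of occurrences of a pattern, modulo two -/
structure Rec (L' c : ℕ) (ε : ℕ → ZMod 2) : Prop where
  pos : ∀ m, 0 < m → ε m = ε (m / 2) + I L' c m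
  zero : ε 0 = 0

/-- number of occurrences among the lowest `κ` positions -/
def M (L' c κ m : ℕ) : ZMod 2 := ∑ t ∈ Finset.range κ, I L' c (m / 2 ^ t)

lemma zmod2_add_self (x : ZMod 2) : x + x = 0 := CharTwo.add_self_eq_zero x

lemma M_zero (L' c m : ℕ) : M L' c 0 m = 0 := by simp [M]

lemma M_succ (L' c κ m : ℕ) : M L' c (κ + 1) m = M L' c κ m + I L' c (m / 2 ^ κ) := by
  simp [M, Finset.sum_range_succ]

lemma M_succ' (L' c κ m : ℕ) : M L' c (κ + 1) m = M L' c κ (m / 2) + I L' c m := by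
  unfold M
  rw [Finset.sum_range_succ']
  congr 1
  · apply Finset.sum_congr rfl
    intro t _
    rw [Nat.div_div_eq_div_mul, ← pow_succ']
  · simp

lemma M_add (L' c κ₁ κ₂ m : ℕ) :
    M L' c (κ₁ + κ₂) m = M L' c κ₁ m + M L' c κ₂ (m / 2 ^ κ₁) := by
  unfold M
  rw [Finset.sum_range_add]
  congr 1
  apply Finset.sum_congr rfl
  intro t _
  rw [Nat.div_div_eq_div_mul, ← pow_add]

lemma I_add_mul (L' c m h : ℕ) : I L' c (m + 2 ^ (L' + 1) * h) = I L' c m := by
  unfold I
  rw [Nat.add_mul_mod_self_left]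

lemma M_add_mul (L' c κ m h : ℕ) : M L' c κ (m + 2 ^ (κ + L') * h) = M L' c κ m := by
  unfold M
  apply Finset.sum_congr rfl
  intro t ht
  have ht' : t < κ := Finset.mem_range.mp ht
  obtain ⟨j, hj⟩ : ∃ j, κ + L' = t + ((L' + 1) + j) := ⟨κ - t - 1, by omega⟩
  rw [hj, pow_add, pow_add, mul_assoc (2 ^ t), Nat.add_mul_div_left _ _ (by positivity),
    mul_assoc, I_add_mul]

lemma div_shift (m s L' h : ℕ) : (m + 2 ^ (s + L') * h) / 2 ^ s = m / 2 ^ s + 2 ^ L' * h := by
  rw [pow_add, mul_assoc, Nat.add_mul_div_left _ _ (by positivity)]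

variable {L' c : ℕ} {ε : ℕ → ZMod 2}

lemma Rec.split (H : Rec L' c ε) (κ m : ℕ) (hm : 2 ^ κ ≤ m) :
    ε m = ε (m / 2 ^ κ) + M L' c κ m := by
  induction κ with
  | zero => simp [M_zero]
  | succ κ ih =>
    have h1 : 2 ^ κ ≤ m := le_trans (Nat.pow_le_pow_right (by norm_num) (Nat.le_succ κ)) hm
    have h2 : 0 < m / 2 ^ κ := Nat.div_pos h1 (by positivity)
    rw [ih h1, M_succ, H.pos _ h2, Nat.div_div_eq_div_mul, ← pow_succ]
    ring

lemma Rec.split' (H : Rec L' c ε) (hc : c ≠ 0) (κ m : ℕ) :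
    ε m = ε (m / 2 ^ κ) + M L' c κ m := by
  have hI : I L' c 0 = 0 := by
    unfold I
    rw [Nat.zero_mod, if_neg hc.symm]
  have hpos : ∀ m, ε m = ε (m / 2) + I L' c m := by
    intro m
    rcases Nat.eq_zero_or_pos m with h | h
    · subst h
      simp [hI, H.zero]
    · exact H.pos m h
  induction κ with
  | zero => simp [M_zero]
  | succ κ ih =>
    rw [ih, M_succ, hpos (m / 2 ^ κ), Nat.div_div_eq_div_mul, ← pow_succ]
    ring

lemma Rec.diff (H : Rec L' c ε) (s m h : ℕ) (hm : 2 ^ s ≤ m) :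
    ε (m + 2 ^ (s + L') * h) + ε m = ε (m / 2 ^ s + 2 ^ L' * h) + ε (m / 2 ^ s) := by
  rw [H.split s (m + 2 ^ (s + L') * h) (le_trans hm (Nat.le_add_right _ _)), H.split s m hm,
    div_shift, M_add_mul]
  have := zmod2_add_self (M L' c s m)
  calc _ = ε (m / 2 ^ s + 2 ^ L' * h) + ε (m / 2 ^ s) + (M L' c s m + M L' c s m) := by ring
    _ = _ := by rw [this, add_zero]

lemma M_diff (κ s m h : ℕ) :
    M L' c (s + κ) (m + 2 ^ (s + L') * h) + M L' c (s + κ) m =
      M L' c κ (m / 2 ^ s + 2 ^ L' * h) + M L' c κ (m / 2 ^ s) := by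
  rw [M_add, M_add, div_shift, M_add_mul]
  have := zmod2_add_self (M L' c s m)
  calc _ = M L' c κ (m / 2 ^ s + 2 ^ L' * h) + M L' c κ (m / 2 ^ s)
        + (M L' c s m + M L' c s m) := by ring
    _ = _ := by rw [this, add_zero]

/-- families satisfying the recursion (constant family `ε`, or `M κ`) -/
def Fam (L' c : ℕ) (G : ℕ → ℕ → ZMod 2) : Prop :=
  ∀ k m, 0 < m → G (k + 1) m = G k (m / 2) + I L' c m

lemma Rec.fam (H : Rec L' c ε) : Fam L' c (fun _ => ε) := fun _ m hm => H.pos m hm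

lemma M_fam : Fam L' c (M L' c) := fun k m _ => M_succ' L' c k m

/-- change lemma: at every `X` in a suitable residue class modulo a power of two the function
`X ↦ G (X + 2 ^ L' * h) + G X` changes between `X` and `X + 1` -/
lemma change (hc : c < 2 ^ (L' + 1)) {h : ℕ} (hh : h % 2 = 1) :
    ∃ b ρ : ℕ, ρ < 2 ^ b ∧ ∀ G : ℕ → ℕ → ZMod 2, Fam L' c G → ∀ k X, X % 2 ^ b = ρ → 4 ≤ X →
      G (k + 2) (X + 1 + 2 ^ L' * h) + G (k + 2) (X + 1) ≠
        G (k + 2) (X + 2 ^ L' * h) + G (k + 2) X := by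
  rcases Nat.eq_zero_or_pos L' with h0 | hL
  · -- patterns of length one
    subst h0
    refine ⟨2, (1 + 3 * h) % 4, Nat.mod_lt _ (by norm_num), ?_⟩
    intro G hG k X hX hX4
    have hcc : c = 0 ∨ c = 1 := by simp at hc; omega
    have hXe : X % 2 = 0 := by omega
    obtain ⟨y, hy⟩ : ∃ y, X + h = 4 * y + 1 := ⟨(X + h) / 4, by omega⟩
    have hy1 : 0 < y := by omega
    have e1 : G (k + 2) X = G (k + 1) (X / 2) + I 0 c X := hG (k + 1) X (by omega)
    have e2 : G (k + 2) (X + 1) = G (k + 1) (X / 2) + I 0 c (X + 1) := by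
      rw [hG (k + 1) (X + 1) (by omega)]
      congr 2
      omega
    have e3 : G (k + 2) (4 * y + 1) = G k y + I 0 c (2 * y) + I 0 c (4 * y + 1) := by
      rw [hG (k + 1) (4 * y + 1) (by omega), show (4 * y + 1) / 2 = 2 * y by omega,
        hG k (2 * y) (by omega), show (2 * y) / 2 = y by omega]
    have e4 : G (k + 2) (4 * y + 2) = G k y + I 0 c (2 * y + 1) + I 0 c (4 * y + 2) := by
      rw [hG (k + 1) (4 * y + 2) (by omega), show (4 * y + 2) / 2 = 2 * y + 1 by omega,
        hG k (2 * y + 1) (by omega), show (2 * y + 1) / 2 = y by omega]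
    have h5 : X + 1 + 2 ^ 0 * h = 4 * y + 2 := by simp; omega
    have h6 : X + 2 ^ 0 * h = 4 * y + 1 := by simp; omega
    rw [h5, h6, e1, e2, e3, e4]
    have i1 : I 0 c X = if c = 0 then 1 else 0 := by
      unfold I; simp only [zero_add, pow_one]; rw [hXe]
      rcases hcc with h | h <;> simp [h]
    have i2 : I 0 c (X + 1) = if c = 0 then 0 else 1 := by
      unfold I; simp only [zero_add, pow_one]; rw [show (X + 1) % 2 = 1 by omega]
      rcases hcc with h | h <;> simp [h]
    have i3 : I 0 c (2 * y) = if c = 0 then 1 else 0 := by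
      unfold I; simp only [zero_add, pow_one]; rw [show (2 * y) % 2 = 0 by omega]
      rcases hcc with h | h <;> simp [h]
    have i4 : I 0 c (4 * y + 1) = if c = 0 then 0 else 1 := by
      unfold I; simp only [zero_add, pow_one]; rw [show (4 * y + 1) % 2 = 1 by omega]
      rcases hcc with h | h <;> simp [h]
    have i5 : I 0 c (2 * y + 1) = if c = 0 then 0 else 1 := by
      unfold I; simp only [zero_add, pow_one]; rw [show (2 * y + 1) % 2 = 1 by omega]
      rcases hcc with h | h <;> simp [h]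
    have i6 : I 0 c (4 * y + 2) = if c = 0 then 1 else 0 := by
      unfold I; simp only [zero_add, pow_one]; rw [show (4 * y + 2) % 2 = 0 by omega]
      rcases hcc with h | h <;> simp [h]
    rw [i1, i2, i3, i4, i5, i6]
    generalize G k y = u
    generalize G (k + 1) (X / 2) = w
    rcases hcc with h | h
    · simp only [h, if_true]
      revert u w; decide
    · simp only [h, one_ne_zero, if_false]
      revert u w; decide
  · -- longer patterns
    have hpow : 2 ^ (L' + 1) = 2 * 2 ^ L' := pow_succ' 2 L'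
    have hpe : 2 ^ L' % 2 = 0 := by
      obtain ⟨j, rfl⟩ : ∃ j, L' = j + 1 := ⟨L' - 1, by omega⟩
      rw [pow_succ]; omega
    refine ⟨L' + 1, 2 * (c / 2), by omega, ?_⟩
    intro G hG k X hX hX4
    have hXe : X % 2 = 0 := by
      have h1 : X % 2 ^ (L' + 1) % 2 = X % 2 :=
        Nat.mod_mod_of_dvd _ ⟨2 ^ L', hpow⟩
      rw [hX] at h1
      omega
    set Y := X + 2 ^ L' * h with hY
    have hmul : (2 ^ L' * h) % 2 = 0 := by
      rw [Nat.mul_mod, hpe]; simp
    have hYe : Y % 2 = 0 := by omega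
    have e1 : G (k + 2) X = G (k + 1) (X / 2) + I L' c X := hG (k + 1) X (by omega)
    have e2 : G (k + 2) (X + 1) = G (k + 1) (X / 2) + I L' c (X + 1) := by
      rw [hG (k + 1) (X + 1) (by omega)]
      congr 2
      omega
    have e3 : G (k + 2) Y = G (k + 1) (Y / 2) + I L' c Y := hG (k + 1) Y (by omega)
    have e4 : G (k + 2) (Y + 1) = G (k + 1) (Y / 2) + I L' c (Y + 1) := by
      rw [hG (k + 1) (Y + 1) (by omega)]
      congr 2
      omega
    -- residues
    have hN : 0 < 2 ^ (L' + 1) := by positivity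
    have hX1 : (X + 1) % 2 ^ (L' + 1) = 2 * (c / 2) + 1 := by
      rw [Nat.add_mod, hX, Nat.mod_eq_of_lt (show 1 < 2 ^ (L' + 1) by
        rw [hpow]; have : 0 < 2 ^ L' := by positivity
        omega)]
      apply Nat.mod_eq_of_lt
      omega
    have hYr : Y % 2 ^ (L' + 1) = (2 * (c / 2) + 2 ^ L') % 2 ^ (L' + 1) := by
      obtain ⟨g, hg⟩ : ∃ g, h = 2 * g + 1 := ⟨h / 2, by omega⟩
      have : Y = X + 2 ^ L' + 2 ^ (L' + 1) * g := by
        rw [hY, hg, hpow]; ring
      rw [this, Nat.add_mul_mod_self_left, Nat.add_mod, hX]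
      conv_rhs => rw [Nat.add_mod]
      congr 2
      exact (Nat.mod_eq_of_lt (by omega)).symm
    have hYne : Y % 2 ^ (L' + 1) ≠ 2 * (c / 2) := by
      rw [hYr]
      intro hcon
      have hlt : 2 * (c / 2) < 2 ^ (L' + 1) := by omega
      have h2 : (2 * (c / 2) + 2 ^ L') % 2 ^ (L' + 1) = (2 * (c / 2) + 0) % 2 ^ (L' + 1) := by
        rw [hcon, add_zero, Nat.mod_eq_of_lt hlt]
      have h3 : 2 ^ L' % 2 ^ (L' + 1) = 0 % 2 ^ (L' + 1) :=
        Nat.ModEq.add_left_cancel' (2 * (c / 2)) h2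
      rw [Nat.zero_mod, Nat.mod_eq_of_lt (by rw [hpow]; have : 0 < 2 ^ L' := by positivity
                                             omega)] at h3
      have : 0 < 2 ^ L' := by positivity
      omega
    have hYm : Y % 2 ^ (L' + 1) % 2 = 0 := by
      rw [Nat.mod_mod_of_dvd _ ⟨2 ^ L', hpow⟩]; exact hYe
    have hYlt : Y % 2 ^ (L' + 1) < 2 ^ (L' + 1) := Nat.mod_lt _ hN
    have hY1 : (Y + 1) % 2 ^ (L' + 1) = Y % 2 ^ (L' + 1) + 1 := by
      rw [Nat.add_mod, Nat.mod_eq_of_lt (show 1 < 2 ^ (L' + 1) by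
        rw [hpow]; have : 0 < 2 ^ L' := by positivity
        omega)]
      apply Nat.mod_eq_of_lt
      omega
    have iY : I L' c Y = 0 := by
      unfold I
      rw [if_neg]
      intro hcon
      omega
    have iY1 : I L' c (Y + 1) = 0 := by
      unfold I
      rw [if_neg]
      intro hcon
      rw [hY1] at hcon
      omega
    have iX : I L' c (X + 1) + I L' c X = 1 := by
      unfold I
      rw [hX, hX1]
      rcases Nat.mod_two_eq_zero_or_one c with h | h
      · rw [if_neg (by omega), if_pos (by omega)]; rfl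
      · rw [if_pos (by omega), if_neg (by omega)]; rfl
    have hassoc : X + 1 + 2 ^ L' * h = Y + 1 := by omega
    rw [hassoc, e1, e2, e3, e4, iY, iY1]
    intro hcon
    have h1 : (G (k + 1) (Y / 2) + G (k + 1) (X / 2)) + I L' c (X + 1)
        = (G (k + 1) (Y / 2) + G (k + 1) (X / 2)) + I L' c X := by
      calc _ = G (k + 1) (Y / 2) + 0 + (G (k + 1) (X / 2) + I L' c (X + 1)) := by ring
        _ = _ := hcon
        _ = _ := by ring
    have h2 := add_left_cancel h1
    rw [h2, zmod2_add_self] at iX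
    exact zero_ne_one iX

end Pool.Agent.H114.PC
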