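import Mathlib
import Pool.Agent.H114.PC.Core

/-!
# Progressions in digit-window additive functions

Near coincidences of jumps, boundedness of monochromatic progressions of difference
`2 ^ k * p + 2 ^ L' * q` (`p ≠ q` odd), finiteness for every difference, and long progressions of
difference `(2 ^ k + 2 ^ L') * p`.
-/

namespace Pool.Agent.H114.PC

lemma exists_hit (s w₀ q target : ℕ) (hq : q % 2 = 1) (ht : target < 2 ^ s) :
    ∃ l, l < 2 ^ s ∧ (w₀ + l * q) % 2 ^ s = target := by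
  have : NeZero (2 ^ s) := ⟨by positivity⟩
  have hcop : Nat.Coprime q (2 ^ s) := by
    apply Nat.Coprime.pow_right
    rw [Nat.coprime_two_right]
    exact Nat.odd_iff.mpr hq
  let u : (ZMod (2 ^ s))ˣ := ZMod.unitOfCoprime q hcop
  refine ⟨(((target : ZMod (2 ^ s)) - w₀) * (u⁻¹ : (ZMod (2 ^ s))ˣ)).val, ZMod.val_lt _, ?_⟩
  have h1 : ((w₀ + (((target : ZMod (2 ^ s)) - w₀) * (u⁻¹ : (ZMod (2 ^ s))ˣ)).val * q : ℕ) :
      ZMod (2 ^ s)) = (target : ZMod (2 ^ s)) := by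
    push_cast
    rw [ZMod.natCast_zmod_val, mul_assoc]
    have : ((u⁻¹ : (ZMod (2 ^ s))ˣ) : ZMod (2 ^ s)) * (q : ZMod (2 ^ s)) = 1 := by
      have hu : (u : ZMod (2 ^ s)) = (q : ZMod (2 ^ s)) := ZMod.coe_unitOfCoprime q hcop
      rw [← hu]
      exact u.inv_mul
    rw [this]
    ring
  have h2 := (ZMod.natCast_eq_natCast_iff' _ _ _).mp h1
  rw [h2, Nat.mod_eq_of_lt ht]

/-- hitting a prescribed jump -/
lemma hit_div {b α ρ q w₀ : ℕ} (i l : ℕ) (hρ : ρ < 2 ^ b) (hi1 : 1 ≤ i) (hiq : i ≤ q)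
    (hq : q < 2 ^ α) (hl : (w₀ + l * q) % 2 ^ (b + α) = ρ * 2 ^ α + (2 ^ α - i)) :
    (w₀ + l * q) / 2 ^ α % 2 ^ b = ρ ∧ (w₀ + (l + 1) * q) / 2 ^ α = (w₀ + l * q) / 2 ^ α + 1 := by
  set z := (w₀ + l * q) / 2 ^ (b + α) with hz
  have hA : 0 < 2 ^ α := by positivity
  have h0 : w₀ + l * q = 2 ^ α * (2 ^ b * z + ρ) + (2 ^ α - i) := by
    have := Nat.div_add_mod (w₀ + l * q) (2 ^ (b + α))
    rw [hl, ← hz, pow_add] at this
    rw [← this]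
    ring
  have h1 : (w₀ + l * q) / 2 ^ α = 2 ^ b * z + ρ := by
    rw [h0, Nat.mul_add_div hA, Nat.div_eq_of_lt (by omega), add_zero]
  refine ⟨?_, ?_⟩
  · rw [h1, Nat.mul_add_mod, Nat.mod_eq_of_lt hρ]
  · rw [h1]
    have h2 : w₀ + (l + 1) * q = 2 ^ α * (2 ^ b * z + ρ + 1) + (q - i) := by
      have : w₀ + (l + 1) * q = w₀ + l * q + q := by ring
      rw [this, h0]
      have h3 : 2 ^ α * (2 ^ b * z + ρ + 1) = 2 ^ α * (2 ^ b * z + ρ) + 2 ^ α := by ring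
      rw [h3]
      omega
    rw [h2, Nat.mul_add_div hA, Nat.div_eq_of_lt (by omega), add_zero]

lemma jump_dvd {α p u₀ l : ℕ} (h : (u₀ + (l + 1) * p) / 2 ^ α ≠ (u₀ + l * p) / 2 ^ α) :
    ∃ j, 1 ≤ j ∧ j ≤ p ∧ (2 ^ α) ∣ u₀ + l * p + j := by
  have hA : 0 < 2 ^ α := by positivity
  have hd := Nat.div_add_mod (u₀ + l * p) (2 ^ α)
  have hr := Nat.mod_lt (u₀ + l * p) hA
  set r := (u₀ + l * p) % 2 ^ α with hrdef
  set Q := (u₀ + l * p) / 2 ^ α with hQ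
  by_cases hlt : r + p < 2 ^ α
  · exfalso
    apply h
    have : u₀ + (l + 1) * p = 2 ^ α * Q + (r + p) := by
      have : u₀ + (l + 1) * p = u₀ + l * p + p := by ring
      omega
    rw [this, Nat.mul_add_div hA, Nat.div_eq_of_lt hlt, add_zero]
  · refine ⟨2 ^ α - r, by omega, by omega, ⟨Q + 1, ?_⟩⟩
    rw [mul_add, mul_one]
    omega

/-- near coincidences of jumps cannot be frequent -/
lemma near {b α ρ p q : ℕ} (u₀ w₀ : ℕ) (hp : 0 < p) (hpq : p < q) (hq : q % 2 = 1)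
    (hA : p * q < 2 ^ α) (hρ : ρ < 2 ^ b) :
    ∃ l, l < 2 ^ (b + α) ∧ (w₀ + l * q) / 2 ^ α % 2 ^ b = ρ ∧
      (w₀ + (l + 1) * q) / 2 ^ α = (w₀ + l * q) / 2 ^ α + 1 ∧
      (u₀ + (l + 1) * p) / 2 ^ α = (u₀ + l * p) / 2 ^ α := by
  have hqA : q < 2 ^ α := lt_of_le_of_lt (Nat.le_mul_of_pos_left q hp) hA
  have hpow : 0 < 2 ^ α := by positivity
  have htar : ∀ i, 1 ≤ i → ρ * 2 ^ α + (2 ^ α - i) < 2 ^ (b + α) := by
    intro i hi
    have h1 : (ρ + 1) * 2 ^ α ≤ 2 ^ b * 2 ^ α := Nat.mul_le_mul_right _ hρ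
    rw [pow_add]
    have h2 : (ρ + 1) * 2 ^ α = ρ * 2 ^ α + 2 ^ α := by ring
    omega
  obtain ⟨l₁, hl₁, hm₁⟩ := exists_hit (b + α) w₀ q _ hq (htar 1 le_rfl)
  obtain ⟨l₂, hl₂, hm₂⟩ := exists_hit (b + α) w₀ q _ hq (htar 2 (by norm_num))
  have hj₁ := hit_div 1 l₁ hρ le_rfl (by omega) hqA hm₁
  have hj₂ := hit_div 2 l₂ hρ (by norm_num) (by omega) hqA hm₂
  by_contra hcon
  push Not at hcon
  have hx₁ := hcon l₁ hl₁ hj₁.1 hj₁.2
  have hx₂ := hcon l₂ hl₂ hj₂.1 hj₂.2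
  obtain ⟨j₁, h11, h12, z₁, hz₁⟩ := jump_dvd hx₁
  obtain ⟨j₂, h21, h22, z₂, hz₂⟩ := jump_dvd hx₂
  have e₁ := Nat.div_add_mod (w₀ + l₁ * q) (2 ^ (b + α))
  have e₂ := Nat.div_add_mod (w₀ + l₂ * q) (2 ^ (b + α))
  rw [hm₁] at e₁
  rw [hm₂] at e₂
  set y₁ := (w₀ + l₁ * q) / 2 ^ (b + α)
  set y₂ := (w₀ + l₂ * q) / 2 ^ (b + α)
  have hdvd : ((2 ^ α : ℕ) : ℤ) ∣ (q : ℤ) * ((j₁ : ℤ) - j₂) + p := by
    have e₁' : ((2 ^ b * 2 ^ α * y₁ + (ρ * 2 ^ α + (2 ^ α - 1)) : ℕ) : ℤ) = w₀ + l₁ * q := by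
      rw [← pow_add]; exact_mod_cast e₁
    have e₂' : ((2 ^ b * 2 ^ α * y₂ + (ρ * 2 ^ α + (2 ^ α - 2)) : ℕ) : ℤ) = w₀ + l₂ * q := by
      rw [← pow_add]; exact_mod_cast e₂
    have hge2 : 2 ≤ 2 ^ α := by omega
    push_cast [Nat.cast_sub (show 1 ≤ 2 ^ α by omega)] at e₁'
    push_cast [Nat.cast_sub hge2] at e₂'
    have z₁' : (u₀ : ℤ) + l₁ * p + j₁ = 2 ^ α * z₁ := by exact_mod_cast hz₁
    have z₂' : (u₀ : ℤ) + l₂ * p + j₂ = 2 ^ α * z₂ := by exact_mod_cast hz₂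
    refine ⟨(q : ℤ) * (z₁ - z₂) - p * (2 ^ b * (y₁ - y₂)), ?_⟩
    push_cast
    linear_combination (q : ℤ) * z₁' - (q : ℤ) * z₂' + (p : ℤ) * e₁' - (p : ℤ) * e₂'
  have habs : |(q : ℤ) * ((j₁ : ℤ) - j₂) + p| < ((2 ^ α : ℕ) : ℤ) := by
    have hA' : (p : ℤ) * q < ((2 ^ α : ℕ) : ℤ) := by exact_mod_cast hA
    have b1 : (j₁ : ℤ) - j₂ ≤ p - 1 := by
      have : (j₁ : ℤ) ≤ p := by exact_mod_cast h12
      have : (1 : ℤ) ≤ j₂ := by exact_mod_cast h21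
      linarith
    have b2 : -((p : ℤ) - 1) ≤ (j₁ : ℤ) - j₂ := by
      have : (j₂ : ℤ) ≤ p := by exact_mod_cast h22
      have : (1 : ℤ) ≤ j₁ := by exact_mod_cast h11
      linarith
    have hq0 : (0 : ℤ) < q := by exact_mod_cast (by omega : 0 < q)
    have hpq' : (p : ℤ) < q := by exact_mod_cast hpq
    have hp' : (0 : ℤ) < p := by exact_mod_cast hp
    have c1 := mul_le_mul_of_nonneg_left b1 hq0.le
    have c2 := mul_le_mul_of_nonneg_left b2 hq0.le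
    have c3 : (q : ℤ) * (p - 1) = p * q - q := by ring
    have c4 : (q : ℤ) * (-((p : ℤ) - 1)) = -(p * q) + q := by ring
    rw [c3] at c1
    rw [c4] at c2
    rw [abs_lt]
    constructor
    · linarith
    · linarith
  have hzero := Int.eq_zero_of_abs_lt_dvd hdvd habs
  have hp' : (0 : ℤ) < p := by exact_mod_cast hp
  have hpq' : (p : ℤ) < q := by exact_mod_cast hpq
  have h3 : (q : ℤ) * ((j₂ : ℤ) - j₁) = p := by linarith
  have hq0 : (0 : ℤ) < q := by exact_mod_cast (by omega : 0 < q)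
  rcases le_or_gt ((j₂ : ℤ) - j₁) 0 with h | h
  · have := mul_nonpos_of_nonneg_of_nonpos hq0.le h
    linarith
  · have h' : (1 : ℤ) ≤ (j₂ : ℤ) - j₁ := h
    have := mul_le_mul_of_nonneg_left h' hq0.le
    rw [mul_one] at this
    linarith

variable {L' c : ℕ}

lemma div_identity (Z l p L' α : ℕ) :
    (Z + l * (2 ^ L' * p)) / 2 ^ (α + L') = (Z / 2 ^ L' + l * p) / 2 ^ α := by
  have : Z + l * (2 ^ L' * p) = Z + 2 ^ L' * (l * p) := by ring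
  rw [this, add_comm α L', pow_add, ← Nat.div_div_eq_div_mul, Nat.add_mul_div_left _ _ (by positivity)]

/-- agreement lemma: two slow progressions of different odd speeds cannot agree for long -/
lemma agree (hc : c < 2 ^ (L' + 1)) {p q : ℕ} (hp : p % 2 = 1) (hq : q % 2 = 1) (hne : p ≠ q) :
    ∃ Λ a : ℕ, ∀ ε : ℕ → ZMod 2, Rec L' c ε → ∀ κ Z n C, 2 ^ (a + 2) ≤ Z → 2 ^ (a + 2) ≤ n →
      ¬ ∀ l ≤ Λ, ε (Z + l * (2 ^ L' * p)) + M L' c (a + (κ + 2)) (n + l * (2 ^ L' * q)) = C := by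
  obtain ⟨α, hα⟩ : ∃ α, p * q < 2 ^ α := ⟨p * q, Nat.lt_two_pow_self⟩
  have key : ∀ ε : ℕ → ZMod 2, Rec L' c ε → ∀ κ Z n C Λ, 2 ^ (α + L' + 2) ≤ Z →
      2 ^ (α + L' + 2) ≤ n →
      (∀ l ≤ Λ, ε (Z + l * (2 ^ L' * p)) +
        M L' c (α + L' + (κ + 2)) (n + l * (2 ^ L' * q)) = C) →
      ∀ l, l + 2 ^ (α + L') ≤ Λ →
      ε ((Z / 2 ^ L' + l * p) / 2 ^ α + 2 ^ L' * p) + ε ((Z / 2 ^ L' + l * p) / 2 ^ α) =
      M L' c (κ + 2) ((n / 2 ^ L' + l * q) / 2 ^ α + 2 ^ L' * q) +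
      M L' c (κ + 2) ((n / 2 ^ L' + l * q) / 2 ^ α) := by
    intro ε H κ Z n C Λ hZ hn hall l hl
    have h1 := hall l (le_trans (Nat.le_add_right _ _) hl)
    have h2 := hall (l + 2 ^ (α + L')) hl
    have d1 := H.diff (α + L') (Z + l * (2 ^ L' * p)) p (by
      have : 2 ^ (α + L') ≤ 2 ^ (α + L' + 2) := Nat.pow_le_pow_right (by norm_num) (by omega)
      omega)
    have d2 := M_diff (L' := L') (c := c) (κ + 2) (α + L') (n + l * (2 ^ L' * q)) q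
    rw [div_identity] at d1 d2
    have r1 : Z + (l + 2 ^ (α + L')) * (2 ^ L' * p) =
        Z + l * (2 ^ L' * p) + 2 ^ (α + L' + L') * p := by
      rw [pow_add _ (α + L') L']; ring
    have r2 : n + (l + 2 ^ (α + L')) * (2 ^ L' * q) =
        n + l * (2 ^ L' * q) + 2 ^ (α + L' + L') * q := by
      rw [pow_add _ (α + L') L']; ring
    rw [r1, r2] at h2
    rw [← d1, ← d2]
    generalize ε (Z + l * (2 ^ L' * p) + 2 ^ (α + L' + L') * p) = A1 at *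
    generalize ε (Z + l * (2 ^ L' * p)) = A2 at *
    generalize M L' c (α + L' + (κ + 2)) (n + l * (2 ^ L' * q) + 2 ^ (α + L' + L') * q) = A3 at *
    generalize M L' c (α + L' + (κ + 2)) (n + l * (2 ^ L' * q)) = A4 at *
    have h3 : A1 + A3 = A2 + A4 := by rw [h1, h2]
    clear d1 d2 h1 h2
    revert A1 A2 A3 A4
    decide
  have hlow : ∀ Z l r, 2 ^ (α + L' + 2) ≤ Z → 4 ≤ (Z / 2 ^ L' + l * r) / 2 ^ α := by
    intro Z l r hZ
    rw [Nat.le_div_iff_mul_le (by positivity)]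
    have : 4 * 2 ^ α ≤ Z / 2 ^ L' := by
      rw [Nat.le_div_iff_mul_le (by positivity)]
      calc 4 * 2 ^ α * 2 ^ L' = 2 ^ (α + L' + 2) := by rw [pow_add, pow_add]; ring
        _ ≤ Z := hZ
    omega
  rcases lt_or_gt_of_ne hne with hlt | hlt
  · -- p < q
    obtain ⟨b, ρ, hρ, hch⟩ := change (L' := L') (c := c) hc hq
    refine ⟨2 ^ (b + α) + 1 + 2 ^ (α + L'), α + L', ?_⟩
    intro ε H κ Z n C hZ hn hall
    have hk := key ε H κ Z n C _ hZ hn hall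
    obtain ⟨l, hl, h1, h2, h3⟩ := near (b := b) (ρ := ρ) (Z / 2 ^ L') (n / 2 ^ L')
      (by omega) hlt hq hα hρ
    have k1 := hk l (by omega)
    have k2 := hk (l + 1) (by omega)
    have hne' := hch (M L' c) M_fam κ _ h1 (hlow n l q hn)
    rw [h2, h3] at k2
    apply hne'
    rw [← k1, ← k2]
  · -- q < p
    obtain ⟨b, ρ, hρ, hch⟩ := change (L' := L') (c := c) hc hp
    refine ⟨2 ^ (b + α) + 1 + 2 ^ (α + L'), α + L', ?_⟩
    intro ε H κ Z n C hZ hn hall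
    have hk := key ε H κ Z n C _ hZ hn hall
    obtain ⟨l, hl, h1, h2, h3⟩ := near (b := b) (ρ := ρ) (n / 2 ^ L') (Z / 2 ^ L')
      (by omega) hlt hp (by rw [mul_comm]; exact hα) hρ
    have k1 := hk l (by omega)
    have k2 := hk (l + 1) (by omega)
    have hne' := hch (fun _ => ε) H.fam 0 _ h1 (hlow Z l p hZ)
    rw [h2, h3] at k2
    apply hne'
    rw [k1, k2]

/-- progressions of difference `2 ^ k * p + 2 ^ L' * q` with `p ≠ q` odd are bounded -/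
lemma offdiag (hc : c < 2 ^ (L' + 1)) {p q : ℕ} (hp : p % 2 = 1) (hq : q % 2 = 1) (hne : p ≠ q) :
    ∃ B K : ℕ, ∀ ε : ℕ → ZMod 2, Rec L' c ε → ∀ k, K ≤ k → ∀ n,
      ¬ ∀ l < B, ε (n + l * (2 ^ k * p + 2 ^ L' * q)) = ε n := by
  obtain ⟨Λ, a, hag⟩ := agree hc hp hq hne
  refine ⟨2 ^ (a + 2) + (2 * Λ + 2), L' + (a + 2) + (2 * Λ + 2) * (2 ^ L' * q), ?_⟩
  intro ε H k hk n hall
  obtain ⟨κ, hκ⟩ : ∃ κ, k = a + (κ + 2) + L' := ⟨k - L' - a - 2, by omega⟩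
  set κ' := a + (κ + 2) with hκ'
  set δ := 2 ^ L' * q with hδ
  set d := 2 ^ k * p + δ with hd
  have hbig : (2 * Λ + 2) * δ < 2 ^ κ' := by
    have h1 : (2 * Λ + 2) * δ ≤ κ' := by omega
    exact lt_of_le_of_lt h1 Nat.lt_two_pow_self
  have hkp : 2 ^ k = 2 ^ κ' * 2 ^ L' := by rw [hκ, pow_add]
  have hdge : 2 ^ κ' ≤ d := by
    have h1 : 2 ^ κ' * 1 ≤ 2 ^ κ' * (2 ^ L' * p) := by
      apply Nat.mul_le_mul_left
      have : 0 < 2 ^ L' := by positivity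
      have hp0 : 0 < p := by omega
      exact Nat.mul_pos this hp0
    have h2 : 2 ^ k * p = 2 ^ κ' * (2 ^ L' * p) := by rw [hkp]; ring
    omega
  -- it suffices to find a start without wrap
  have main : ∀ n' i, n' = n + i * d → 2 ^ (a + 2) ≤ i → i + Λ < 2 ^ (a + 2) + (2 * Λ + 2) →
      n' % 2 ^ κ' + Λ * δ < 2 ^ κ' → False := by
    intro n' i hn' hi hiB hw
    have hn'ge : 2 ^ (a + 2) * 2 ^ κ' ≤ n' := by
      rw [hn']
      calc 2 ^ (a + 2) * 2 ^ κ' ≤ i * d := Nat.mul_le_mul hi hdge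
        _ ≤ n + i * d := Nat.le_add_left _ _
    have hκpos : 0 < 2 ^ κ' := by positivity
    apply hag ε H κ (n' / 2 ^ κ') n' (ε n)
    · rw [Nat.le_div_iff_mul_le hκpos]; exact hn'ge
    · exact le_trans (Nat.le_mul_of_pos_right _ hκpos) hn'ge
    · intro l hl
      have hlδ : l * δ ≤ Λ * δ := Nat.mul_le_mul_right _ hl
      have e1 : n' + l * d = (n' + l * δ) + 2 ^ (κ' + L') * (l * p) := by
        rw [hd, pow_add, hkp]; ring
      have e2 : (n' + l * d) / 2 ^ κ' = n' / 2 ^ κ' + l * (2 ^ L' * p) := by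
        have h0 := Nat.div_add_mod n' (2 ^ κ')
        have e3 : n' + l * d = 2 ^ κ' * (n' / 2 ^ κ' + l * (2 ^ L' * p)) +
            (n' % 2 ^ κ' + l * δ) := by
          have : 2 ^ κ' * (n' / 2 ^ κ' + l * (2 ^ L' * p)) =
            2 ^ κ' * (n' / 2 ^ κ') + 2 ^ k * p * l := by rw [hkp]; ring
          have h4 : l * d = 2 ^ k * p * l + l * δ := by rw [hd]; ring
          omega
        have hlt : n' % 2 ^ κ' + l * δ < 2 ^ κ' := by omega
        rw [e3, Nat.mul_add_div hκpos, Nat.div_eq_of_lt hlt, add_zero]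
      have e4 := H.split κ' (n' + l * d) (by
        have : 2 ^ κ' ≤ 2 ^ (a + 2) * 2 ^ κ' := Nat.le_mul_of_pos_left _ (by positivity)
        omega)
      have e5 : M L' c κ' (n' + l * d) = M L' c κ' (n' + l * δ) := by
        rw [e1, M_add_mul]
      rw [e5, e2] at e4
      rw [← e4, hn']
      have e6 : n + i * d + l * d = n + (i + l) * d := by ring
      rw [e6]
      exact hall (i + l) (by omega)
  set n₁ := n + 2 ^ (a + 2) * d with hn₁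
  by_cases hw : n₁ % 2 ^ κ' + Λ * δ < 2 ^ κ'
  · exact main n₁ (2 ^ (a + 2)) hn₁ le_rfl (by omega) hw
  · have hκpos : 0 < 2 ^ κ' := by positivity
    have hr : n₁ % 2 ^ κ' < 2 ^ κ' := Nat.mod_lt _ hκpos
    apply main (n + (2 ^ (a + 2) + (Λ + 1)) * d) (2 ^ (a + 2) + (Λ + 1)) rfl (by omega) (by omega)
    have e1 : n + (2 ^ (a + 2) + (Λ + 1)) * d = n₁ + (Λ + 1) * δ +
        2 ^ κ' * (2 ^ L' * p * (Λ + 1)) := by
      rw [hn₁, hd, hkp]; ring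
    rw [e1, Nat.add_mul_mod_self_left]
    have e2 : (Λ + 1) * δ = Λ * δ + δ := by ring
    have e3 : (2 * Λ + 2) * δ = 2 * (Λ * δ) + 2 * δ := by ring
    have hδpos : 0 < δ := by
      rw [hδ]
      have : 0 < q := by omega
      positivity
    have e4 : (n₁ + (Λ + 1) * δ) % 2 ^ κ' = n₁ % 2 ^ κ' + (Λ + 1) * δ - 2 ^ κ' := by
      have h0 := Nat.div_add_mod n₁ (2 ^ κ')
      have : n₁ + (Λ + 1) * δ = 2 ^ κ' * (n₁ / 2 ^ κ' + 1) +
          (n₁ % 2 ^ κ' + (Λ + 1) * δ - 2 ^ κ') := by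
        have : 2 ^ κ' * (n₁ / 2 ^ κ' + 1) = 2 ^ κ' * (n₁ / 2 ^ κ') + 2 ^ κ' := by ring
        omega
      rw [this, Nat.mul_add_mod, Nat.mod_eq_of_lt]
      omega
    rw [e4]
    omega

/-- every difference admits only bounded monochromatic progressions -/
lemma bounded (hc : c < 2 ^ (L' + 1)) {d : ℕ} (hd : 0 < d) :
    ∃ B : ℕ, ∀ ε : ℕ → ZMod 2, Rec L' c ε → ∀ n, ¬ ∀ l < B, ε (n + l * d) = ε n := by
  obtain ⟨i, d', hd'odd, hd'⟩ := Nat.exists_eq_two_pow_mul_odd (n := d) (by omega)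
  have hodd : d' % 2 = 1 := Nat.odd_iff.mp hd'odd
  obtain ⟨b, ρ, hρ, hch⟩ := change (L' := L') (c := c) hc hodd
  obtain ⟨α, hα⟩ : ∃ α, d' < 2 ^ α := ⟨d', Nat.lt_two_pow_self⟩
  set s := i + α with hs
  refine ⟨4 * 2 ^ s + (2 ^ (b + α) + 1 + 2 ^ (α + L') + 1), ?_⟩
  intro ε H n hall
  set n₁ := n + (4 * 2 ^ s) * d with hn₁
  have hn₁ge : 4 * 2 ^ s ≤ n₁ := by
    have : 4 * 2 ^ s ≤ 4 * 2 ^ s * d := Nat.le_mul_of_pos_right _ hd
    omega
  have hA : 0 < 2 ^ α := by positivity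
  have htar : ρ * 2 ^ α + (2 ^ α - 1) < 2 ^ (b + α) := by
    have h1 : (ρ + 1) * 2 ^ α ≤ 2 ^ b * 2 ^ α := Nat.mul_le_mul_right _ hρ
    rw [pow_add]
    have h2 : (ρ + 1) * 2 ^ α = ρ * 2 ^ α + 2 ^ α := by ring
    omega
  obtain ⟨l, hl, hm⟩ := exists_hit (b + α) (n₁ / 2 ^ i) d' _ hodd htar
  obtain ⟨h1, h2⟩ := hit_div 1 l hρ le_rfl (by omega) hα hm
  have hdiv : ∀ j, (n₁ + j * d) / 2 ^ s = (n₁ / 2 ^ i + j * d') / 2 ^ α := by
    intro j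
    rw [hd', hs, pow_add, ← Nat.div_div_eq_div_mul]
    have : n₁ + j * (2 ^ i * d') = n₁ + 2 ^ i * (j * d') := by ring
    rw [this, Nat.add_mul_div_left _ _ (by positivity)]
  have hzero : ∀ j, j + 2 ^ (α + L') < 2 ^ (b + α) + 1 + 2 ^ (α + L') + 1 →
      ε ((n₁ / 2 ^ i + j * d') / 2 ^ α + 2 ^ L' * d') + ε ((n₁ / 2 ^ i + j * d') / 2 ^ α) = 0 := by
    intro j hj
    have hposw : 0 < 2 ^ (α + L') := by positivity
    have d1 := H.diff s (n₁ + j * d) d' (by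
      have : 2 ^ s ≤ 4 * 2 ^ s := by omega
      omega)
    rw [hdiv] at d1
    rw [← d1]
    have e1 : n₁ + j * d + 2 ^ (s + L') * d' = n + (4 * 2 ^ s + (j + 2 ^ (α + L'))) * d := by
      rw [hn₁]
      have : 2 ^ (s + L') * d' = 2 ^ (α + L') * d := by
        rw [hd', hs]
        rw [show i + α + L' = i + (α + L') by ring, pow_add]
        ring
      rw [this]; ring
    have e2 : n₁ + j * d = n + (4 * 2 ^ s + j) * d := by rw [hn₁]; ring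
    rw [e1, e2, hall _ (by omega), hall _ (by omega)]
    exact zmod2_add_self _
  have k1 := hzero l (by omega)
  have k2 := hzero (l + 1) (by omega)
  rw [h2] at k2
  have h4 : 4 ≤ (n₁ / 2 ^ i + l * d') / 2 ^ α := by
    rw [Nat.le_div_iff_mul_le hA]
    have : 4 * 2 ^ α ≤ n₁ / 2 ^ i := by
      rw [Nat.le_div_iff_mul_le (by positivity)]
      calc 4 * 2 ^ α * 2 ^ i = 4 * 2 ^ s := by rw [hs, pow_add]; ring
        _ ≤ n₁ := hn₁ge
    omega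
  exact hch (fun _ => ε) H.fam 0 _ h1 h4 (by rw [k1, k2])

end Pool.Agent.H114.PC
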