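import Mathlib

/-!
# Counting occurrences of a pattern in binary expansions

`e v n` = number of occurrences of the block `v` in the binary expansion of `n`
(with the usual convention for patterns with leading zeros), and its digit recursion.
-/

namespace Pool.Agent.H114.PC

/-- the canonical binary expansion of `n`, most significant digit first (`[]` for `n = 0`) -/
def bin (n : ℕ) : List ℕ := (Nat.digits 2 n).reverse

open Classical in
/-- number of occurrences of `v` as a block of `w`: the number of ways to write `w = s ++ v ++ t`,
counted by the length of `t` -/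
noncomputable def occ (v w : List ℕ) : ℕ :=
  ((Finset.range (w.length + 1)).filter
    (fun i => ∃ s t : List ℕ, t.length = i ∧ w = s ++ v ++ t)).card

/-- the zeros prepended to the expansions: if `v` contains a `1` and begins with exactly `i` zeros
then `i` zeros, if `v` has no `1` then none -/
def pad (v : List ℕ) : List ℕ := if 1 ∈ v then v.takeWhile (fun x => x = 0) else []

/-- `e v n` : number of occurrences of the pattern `v` in the (padded) binary expansion of `n` -/
noncomputable def e (v : List ℕ) (n : ℕ) : ℕ := occ v (pad v ++ bin n)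

/-- value of a pattern read in base two -/
def val (v : List ℕ) : ℕ := Nat.ofDigits 2 v.reverse

open Classical in
lemma occ_snoc (v w : List ℕ) (b : ℕ) :
    occ v (w ++ [b]) = occ v w + if v <:+ w ++ [b] then 1 else 0 := by
  unfold occ
  rw [Finset.card_filter, Finset.card_filter]
  have hl : (w ++ [b]).length + 1 = (w.length + 1) + 1 := by simp
  rw [hl, Finset.sum_range_succ']
  congr 1
  · apply Finset.sum_congr rfl
    intro i _
    congr 1
    apply propext
    constructor
    · rintro ⟨s, t, ht, hw⟩
      have ht0 : t ≠ [] := by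
        intro h
        rw [h] at ht
        simp at ht
      refine ⟨s, t.dropLast, by simp [ht], ?_⟩
      have h1 : w ++ [b] = (s ++ v ++ t.dropLast) ++ [t.getLast ht0] := by
        rw [hw, List.append_assoc (s ++ v), List.dropLast_append_getLast ht0]
      exact (List.append_inj' h1 (by simp)).1
    · rintro ⟨s, t, ht, hw⟩
      refine ⟨s, t ++ [b], by simp [ht], ?_⟩
      rw [hw]
      simp
  · congr 1
    apply propext
    constructor
    · rintro ⟨s, t, ht, hw⟩
      have : t = [] := List.length_eq_zero_iff.mp ht
      subst this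
      exact ⟨s, by simpa using hw.symm⟩
    · rintro ⟨s, hs⟩
      exact ⟨s, [], rfl, by simpa using hs.symm⟩

lemma bin_pos {m : ℕ} (hm : 0 < m) : bin m = bin (m / 2) ++ [m % 2] := by
  unfold bin
  rw [Nat.digits_def' (by norm_num) hm]
  simp

lemma bin_zero : bin 0 = [] := by simp [bin]

lemma val_lt {v : List ℕ} (hv : ∀ x ∈ v, x < 2) : val v < 2 ^ v.length := by
  unfold val
  have := Nat.ofDigits_lt_base_pow_length (b := 2) (l := v.reverse) (by norm_num)
    (by intro x hx; exact hv x (List.mem_reverse.mp hx))
  simpa using this

lemma pad_lt {v : List ℕ} (hv : ∀ x ∈ v, x < 2) : ∀ x ∈ pad v, x < 2 := by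
  intro x hx
  unfold pad at hx
  split_ifs at hx with h
  · exact hv x ((List.takeWhile_sublist _).subset hx)
  · simp at hx

lemma pad_zero {v : List ℕ} : ∀ x ∈ pad v, x = 0 := by
  intro x hx
  unfold pad at hx
  split_ifs at hx with h
  · have := List.mem_takeWhile_imp hx
    simpa using this
  · simp at hx

lemma ofDigits_zero_list {l : List ℕ} (h : ∀ x ∈ l, x = 0) : Nat.ofDigits 2 l = 0 := by
  induction l with
  | nil => simp
  | cons a t ih =>
    rw [Nat.ofDigits_cons, ih (fun x hx => h x (List.mem_cons_of_mem _ hx)), h a List.mem_cons_self]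

/-- if `v` contains a `1`, then `v = zeros ++ 1 :: rest` with the zeros the padding -/
lemma pad_split {v : List ℕ} (hv : ∀ x ∈ v, x < 2) (h1 : 1 ∈ v) :
    ∃ rest : List ℕ, v = pad v ++ 1 :: rest := by
  unfold pad
  rw [if_pos h1]
  have h := List.takeWhile_append_dropWhile (p := fun x => decide (x = 0)) (l := v)
  rcases hd : v.dropWhile (fun x => decide (x = 0)) with _ | ⟨a, rest⟩
  · exfalso
    rw [hd, List.append_nil] at h
    rw [← h] at h1
    have := List.mem_takeWhile_imp h1
    simp at this
  · have ha : a ≠ 0 := by
      have := List.head_dropWhile_not (fun x => decide (x = 0)) (l := v) (by rw [hd]; simp)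
      simp only [hd, List.head_cons] at this
      simpa using this
    have ha2 : a < 2 := by
      apply hv
      have : a ∈ v.dropWhile (fun x => decide (x = 0)) := by rw [hd]; simp
      exact (List.dropWhile_sublist _).subset this
    have : a = 1 := by omega
    subst this
    refine ⟨rest, ?_⟩
    rw [hd] at h
    exact h.symm

lemma val_ge {v : List ℕ} (hv : ∀ x ∈ v, x < 2) (h1 : 1 ∈ v) :
    2 ^ (v.length - (pad v).length - 1) ≤ val v := by
  obtain ⟨rest, hr⟩ := pad_split hv h1
  have hlen : v.length - (pad v).length - 1 = rest.length := by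
    have := congrArg List.length hr
    simp at this
    omega
  rw [hlen]
  unfold val
  have : v.reverse = rest.reverse ++ (1 :: (pad v).reverse) := by
    conv_lhs => rw [hr]
    simp
  rw [this, Nat.ofDigits_append]
  have h3 : Nat.ofDigits 2 (pad v).reverse = 0 :=
    ofDigits_zero_list (fun x hx => pad_zero x (List.mem_reverse.mp hx))
  have h2 : Nat.ofDigits 2 (1 :: (pad v).reverse) = 1 := by
    rw [Nat.ofDigits_cons, h3]
  rw [h2]
  simp

lemma val_zero_iff {v : List ℕ} (hv : ∀ x ∈ v, x < 2) : val v = 0 ↔ 1 ∉ v := by
  constructor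
  · intro h h1
    have := val_ge hv h1
    have h2 : 0 < 2 ^ (v.length - (pad v).length - 1) := by positivity
    omega
  · intro h
    unfold val
    apply ofDigits_zero_list
    intro x hx
    have hx' := List.mem_reverse.mp hx
    have h2 := hv x hx'
    have : x ≠ 1 := fun hh => h (hh ▸ hx')
    omega

lemma suffix_iff {v : List ℕ} (hv : ∀ x ∈ v, x < 2) {m : ℕ} (hm : 0 < m) :
    v <:+ pad v ++ bin m ↔ m % 2 ^ v.length = val v := by
  set D : List ℕ := Nat.digits 2 m ++ (pad v).reverse with hD
  have hrev : (pad v ++ bin m).reverse = D := by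
    simp [bin, hD]
  have hDlt : ∀ x ∈ D, x < 2 := by
    intro x hx
    rw [hD, List.mem_append] at hx
    rcases hx with hx | hx
    · exact Nat.digits_lt_base (by norm_num) hx
    · exact pad_lt hv x (List.mem_reverse.mp hx)
  have hDval : Nat.ofDigits 2 D = m := by
    rw [hD, Nat.ofDigits_append, Nat.ofDigits_digits,
      ofDigits_zero_list (fun x hx => pad_zero x (List.mem_reverse.mp hx))]
    simp
  have hmod : m % 2 ^ v.length = Nat.ofDigits 2 (D.take v.length) := by
    have := Nat.ofDigits_mod_pow_eq_ofDigits_take v.length (p := 2) (by norm_num) D hDlt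
    rw [hDval] at this
    exact this
  have h1 : v <:+ pad v ++ bin m ↔ v.reverse <+: D := by
    rw [← hrev]
    exact List.reverse_prefix.symm
  rw [h1, List.prefix_iff_eq_take, List.length_reverse, hmod]
  constructor
  · intro h
    unfold val
    rw [h]
  · intro h
    have hlen : v.length ≤ D.length := by
      have hle : val v ≤ m := by
        rw [← h, ← hmod]
        exact Nat.mod_le _ _
      have hdl : D.length = (Nat.digits 2 m).length + (pad v).length := by simp [hD]
      rw [hdl]
      by_cases h1 : 1 ∈ v
      · have h2 := val_ge hv h1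
        have h3 : m < 2 ^ (Nat.digits 2 m).length := Nat.lt_base_pow_length_digits (by norm_num)
        have h4 : 2 ^ (v.length - (pad v).length - 1) < 2 ^ (Nat.digits 2 m).length := by omega
        have h5 := (Nat.pow_lt_pow_iff_right (by norm_num : 1 < 2)).mp h4
        omega
      · have h2 := (val_zero_iff hv).mpr h1
        have h3 : m % 2 ^ v.length = 0 := by rw [hmod, h, h2]
        have h4 : 2 ^ v.length ≤ m := Nat.le_of_dvd hm (Nat.dvd_of_mod_eq_zero h3)
        have h5 : m < 2 ^ (Nat.digits 2 m).length := Nat.lt_base_pow_length_digits (by norm_num)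
        have h6 : 2 ^ v.length < 2 ^ (Nat.digits 2 m).length := by omega
        have h7 := (Nat.pow_lt_pow_iff_right (by norm_num : 1 < 2)).mp h6
        omega
    apply Nat.ofDigits_inj_of_len_eq (b := 2) (by norm_num)
    · simp [hlen]
    · intro x hx
      exact hv x (List.mem_reverse.mp hx)
    · intro x hx
      exact hDlt x (List.mem_of_mem_take hx)
    · exact h.symm

/-- the digit recursion -/
lemma e_pos {v : List ℕ} (hv : ∀ x ∈ v, x < 2) {m : ℕ} (hm : 0 < m) :
    e v m = e v (m / 2) + if m % 2 ^ v.length = val v then 1 else 0 := by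
  unfold e
  rw [bin_pos hm, ← List.append_assoc, occ_snoc]
  congr 1
  rw [List.append_assoc, ← bin_pos hm]
  by_cases h : m % 2 ^ v.length = val v
  · rw [if_pos h, if_pos ((suffix_iff hv hm).mpr h)]
  · rw [if_neg h, if_neg (fun hh => h ((suffix_iff hv hm).mp hh))]

lemma e_zero {v : List ℕ} (hv : ∀ x ∈ v, x < 2) (hne : v ≠ []) : e v 0 = 0 := by
  classical
  unfold e occ
  rw [bin_zero, List.append_nil, Finset.card_eq_zero, Finset.filter_eq_empty_iff]
  rintro i _ ⟨s, t, _, hw⟩
  have hl := congrArg List.length hw
  simp only [List.length_append] at hl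
  by_cases h1 : 1 ∈ v
  · obtain ⟨rest, hr⟩ := pad_split hv h1
    have := congrArg List.length hr
    simp at this
    omega
  · have : (pad v).length = 0 := by simp [pad, h1]
    have h2 : 0 < v.length := List.length_pos_iff.mpr hne
    omega

end Pool.Agent.H114.PC
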