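import Mathlib
import Pool.Agent.H114.PC.Base
import Pool.Agent.H114.PC.Core

/-!
# Lengths of monochromatic progressions in pattern-count colourings
-/

namespace Pool.Agent.H114.PC

/-- a pattern: a nonempty word over `{0, 1}` -/
def IsPattern (v : List ℕ) : Prop := v ≠ [] ∧ ∀ x ∈ v, x = 0 ∨ x = 1

/-- `A v n d = inf {l ≥ 1 : e_v(n + l d) ≢ e_v(n) mod 2}`, with value `⊤` if there is no such `l` -/
noncomputable def A (v : List ℕ) (n d : ℕ) : ℕ∞ :=
  sInf {x : ℕ∞ | ∃ l : ℕ, x = l ∧ 1 ≤ l ∧ ¬ e v (n + l * d) ≡ e v n [MOD 2]}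

/-- `A_v(d) = sup_n A_v(n, d)` -/
noncomputable def Asup (v : List ℕ) (d : ℕ) : ℕ∞ := ⨆ n : ℕ, A v n d

/-- the number of occurrences modulo two -/
noncomputable def eps (v : List ℕ) (n : ℕ) : ZMod 2 := (e v n : ZMod 2)

lemma eps_eq_iff (v : List ℕ) (m n : ℕ) : eps v m = eps v n ↔ e v m ≡ e v n [MOD 2] :=
  ZMod.natCast_eq_natCast_iff _ _ _

lemma IsPattern.lt {v : List ℕ} (h : IsPattern v) : ∀ x ∈ v, x < 2 := by
  intro x hx
  rcases h.2 x hx with h | h <;> omega

lemma IsPattern.len {v : List ℕ} (h : IsPattern v) : v.length = (v.length - 1) + 1 := by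
  have := List.length_pos_iff.mpr h.1
  omega

lemma IsPattern.val_lt {v : List ℕ} (h : IsPattern v) : val v < 2 ^ ((v.length - 1) + 1) := by
  rw [← h.len]
  exact PC.val_lt h.lt

lemma IsPattern.rec {v : List ℕ} (h : IsPattern v) : Rec (v.length - 1) (val v) (eps v) where
  pos := by
    intro m hm
    unfold eps I
    rw [e_pos h.lt hm, ← h.len]
    push_cast
    rfl
  zero := by
    unfold eps
    rw [e_zero h.lt h.1]
    simp

lemma IsPattern.val_eq_zero {v : List ℕ} (h : IsPattern v) : val v = 0 ↔ 1 ∉ v :=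
  val_zero_iff h.lt

lemma A_le {v : List ℕ} {n d B : ℕ} (h : ¬ ∀ l < B, eps v (n + l * d) = eps v n) :
    A v n d ≤ B := by
  push Not at h
  obtain ⟨l, hl, hne⟩ := h
  refine le_trans (sInf_le ⟨l, rfl, ?_, ?_⟩) (Nat.cast_le.mpr hl.le)
  · rcases Nat.eq_zero_or_pos l with h0 | h0
    · subst h0
      simp at hne
    · exact h0
  · rw [← eps_eq_iff]
    exact hne

lemma le_A {v : List ℕ} {n d T : ℕ} (h : ∀ l < T, eps v (n + l * d) = eps v n) :
    (T : ℕ∞) ≤ A v n d := by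
  apply le_sInf
  rintro x ⟨l, rfl, _, hne⟩
  rw [← eps_eq_iff] at hne
  by_contra hcon
  push Not at hcon
  exact hne (h l (by exact_mod_cast hcon))

lemma le_Asup {v : List ℕ} (n d : ℕ) : A v n d ≤ Asup v d := le_iSup (fun n => A v n d) n

lemma Asup_le {v : List ℕ} {d B : ℕ} (h : ∀ n, ¬ ∀ l < B, eps v (n + l * d) = eps v n) :
    Asup v d ≤ B := iSup_le fun n => A_le (h n)

end Pool.Agent.H114.PC
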