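import Mathlib
import Pool.Agent.H114.PC.Defs
import Pool.Agent.H114.PC.Agree

/-!
# Long progressions of difference `(2 ^ k + 2 ^ L') * p`, and bounds for `A`
-/

namespace Pool.Agent.H114.PC

variable {L' c : ℕ} {ε : ℕ → ZMod 2}

lemma M_small (H : Rec L' c ε) {s y : ℕ} (h1 : 2 ^ s ≤ y) (h2 : y < 2 ^ (s + 1)) (j : ℕ) :
    M L' c (s + 1 + j) y = ε y + j * I L' c 0 := by
  induction j with
  | zero =>
    have hy : y / 2 ^ s = 1 := by
      apply Nat.div_eq_of_lt_le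
      · rw [one_mul]; exact h1
      · rw [pow_succ] at h2; omega
    rw [add_zero, M_succ, H.split s y h1, hy, H.pos 1 (by norm_num)]
    simp [H.zero]
    ring
  | succ j ih =>
    have hy : y / 2 ^ (s + 1 + j) = 0 := by
      apply Nat.div_eq_of_lt
      exact lt_of_lt_of_le h2 (Nat.pow_le_pow_right (by norm_num) (by omega))
    rw [← add_assoc, M_succ, ih, hy]
    push_cast
    ring

lemma two_block (H : Rec L' c ε) {κ x : ℕ} (hx : 2 ^ L' * x < 2 ^ κ) (hx0 : 0 < x) :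
    ε ((2 ^ (κ + L') + 2 ^ L') * x) = ε (2 ^ L' * x) + M L' c κ (2 ^ L' * x) := by
  have e1 : (2 ^ (κ + L') + 2 ^ L') * x = 2 ^ κ * (2 ^ L' * x) + 2 ^ L' * x := by
    rw [pow_add]; ring
  have e2 : (2 ^ (κ + L') + 2 ^ L') * x = 2 ^ L' * x + 2 ^ (κ + L') * x := by ring
  have hpos : 0 < 2 ^ L' * x := by positivity
  have hκ : 0 < 2 ^ κ := by positivity
  rw [H.split κ _ (by rw [e1]; nlinarith)]
  congr 1
  · congr 1
    rw [e1, Nat.mul_add_div hκ, Nat.div_eq_of_lt hx, add_zero]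
  · rw [e2, M_add_mul]

lemma diag_sup (H : Rec L' c ε) {κ K x : ℕ} (hK : K + L' + 1 ≤ κ) (h1 : 2 ^ K ≤ x)
    (h2 : x < 2 ^ (K + 1)) :
    ε ((2 ^ (κ + L') + 2 ^ L') * x) = ((κ - (K + L' + 1) : ℕ) : ZMod 2) * I L' c 0 := by
  have hy1 : 2 ^ (K + L') ≤ 2 ^ L' * x := by
    rw [add_comm, pow_add]; exact Nat.mul_le_mul_left _ h1
  have hy2 : 2 ^ L' * x < 2 ^ (K + L' + 1) := by
    rw [show K + L' + 1 = L' + (K + 1) by ring, pow_add]
    exact Nat.mul_lt_mul_of_pos_left h2 (by positivity)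
  have hx0 : 0 < x := lt_of_lt_of_le (by positivity) h1
  rw [two_block H (lt_of_lt_of_le hy2 (Nat.pow_le_pow_right (by norm_num) hK)) hx0]
  obtain ⟨j, rfl⟩ : ∃ j, κ = K + L' + 1 + j := ⟨κ - (K + L' + 1), by omega⟩
  rw [M_small H hy1 hy2 j, ← add_assoc, zmod2_add_self, zero_add]
  congr 2
  omega

lemma diag_zero (H : Rec L' c ε) (hc : c ≠ 0) {κ x : ℕ} (hx : 2 ^ L' * x < 2 ^ κ) :
    ε ((2 ^ (κ + L') + 2 ^ L') * x) = 0 := by
  rcases Nat.eq_zero_or_pos x with h0 | h0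
  · subst h0
    simp [H.zero]
  · rw [two_block H hx h0]
    have := H.split' hc κ (2 ^ L' * x)
    rw [Nat.div_eq_of_lt hx, H.zero, zero_add] at this
    rw [← this, zmod2_add_self]

section
variable {v : List ℕ}

/-- long progressions starting at a suitable place -/
lemma A_diag_sup (hv : IsPattern v) {p : ℕ} (hp : 0 < p) (T : ℕ) :
    ∃ K₀, ∀ k, K₀ ≤ k → (T : ℕ∞) ≤ Asup v (2 ^ k * p + 2 ^ (v.length - 1) * p) := by
  set L' := v.length - 1 with hL'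
  refine ⟨L' + (T * p + L' + 1), ?_⟩
  intro k hk
  obtain ⟨κ, rfl⟩ : ∃ κ, k = κ + L' := ⟨k - L', by omega⟩
  have hκ : T * p + L' + 1 ≤ κ := by omega
  set K := T * p with hK
  refine le_trans ?_ (le_Asup ((2 ^ (κ + L') + 2 ^ L') * 2 ^ K) _)
  apply le_A
  intro l hl
  have hlp : l * p < 2 ^ K := by
    calc l * p ≤ T * p := Nat.mul_le_mul_right _ hl.le
      _ < 2 ^ K := Nat.lt_two_pow_self
  have e1 : (2 ^ (κ + L') + 2 ^ L') * 2 ^ K + l * (2 ^ (κ + L') * p + 2 ^ L' * p) =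
      (2 ^ (κ + L') + 2 ^ L') * (2 ^ K + l * p) := by ring
  rw [e1, diag_sup hv.rec hκ (Nat.le_add_right _ _) (by rw [pow_succ]; omega),
    diag_sup hv.rec hκ le_rfl (by rw [pow_succ]; have : 0 < 2 ^ K := by positivity
                                  omega)]

/-- long progressions starting at zero, for patterns containing a `1` -/
lemma A_diag_zero (hv : IsPattern v) (h1 : 1 ∈ v) {p : ℕ} (T : ℕ) :
    ∃ K₀, ∀ k, K₀ ≤ k → (T : ℕ∞) ≤ A v 0 (2 ^ k * p + 2 ^ (v.length - 1) * p) := by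
  set L' := v.length - 1 with hL'
  refine ⟨L' + (L' + T * p), ?_⟩
  intro k hk
  obtain ⟨κ, rfl⟩ : ∃ κ, k = κ + L' := ⟨k - L', by omega⟩
  have hc : val v ≠ 0 := fun h => (hv.val_eq_zero.mp h) h1
  apply le_A
  intro l hl
  have hlp : 2 ^ L' * (l * p) < 2 ^ κ := by
    calc 2 ^ L' * (l * p) ≤ 2 ^ L' * (T * p) :=
          Nat.mul_le_mul_left _ (Nat.mul_le_mul_right _ hl.le)
      _ < 2 ^ L' * 2 ^ (T * p) := Nat.mul_lt_mul_of_pos_left Nat.lt_two_pow_self (by positivity)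
      _ = 2 ^ (L' + T * p) := (pow_add _ _ _).symm
      _ ≤ 2 ^ κ := Nat.pow_le_pow_right (by norm_num) (by omega)
  have e1 : 0 + l * (2 ^ (κ + L') * p + 2 ^ L' * p) = (2 ^ (κ + L') + 2 ^ L') * (l * p) := by ring
  rw [e1, diag_zero hv.rec hc hlp, hv.rec.zero]

lemma Asup_offdiag (hv : IsPattern v) {p q : ℕ} (hp : p % 2 = 1) (hq : q % 2 = 1) (hne : p ≠ q) :
    ∃ B K₀ : ℕ, ∀ k, K₀ ≤ k → Asup v (2 ^ k * p + 2 ^ (v.length - 1) * q) ≤ B := by
  obtain ⟨B, K, h⟩ := offdiag hv.val_lt hp hq hne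
  exact ⟨B, K, fun k hk => Asup_le (h _ hv.rec k hk)⟩

lemma Asup_lt_top (hv : IsPattern v) {d : ℕ} (hd : 0 < d) : Asup v d < ⊤ := by
  obtain ⟨B, h⟩ := bounded hv.val_lt hd
  exact lt_of_le_of_lt (Asup_le (h _ hv.rec)) (ENat.natCast_lt_top B)

end

end Pool.Agent.H114.PC
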