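import Mathlib
import Pool.Agent.H114.PC.Agree

/-!
# Independence of the colours of the odd multiples of a number

For every finite set `S` of odd numbers, every residue `r₀` modulo `2 ^ L` and every prescription
of bits there is `d ≡ r₀ mod 2 ^ L` such that `ε (m * d)`, `m ∈ S`, are the prescribed bits.
-/

namespace Pool.Agent.H114.PC

variable {L' c : ℕ}

/-- bit vectors realised by blocks of `k` digits ending in `2 ^ L` zeros -/
def Reach (L' c : ℕ) (S : Finset ℕ) (t : ℕ → ZMod 2) : Prop :=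
  ∃ k y : ℕ, 2 ^ (L' + 1) ∣ y ∧ (∀ m ∈ S, m * y < 2 ^ k) ∧ ∀ m ∈ S, M L' c k (m * y) = t m

lemma Reach.congr {S : Finset ℕ} {t t' : ℕ → ZMod 2} (h : Reach L' c S t)
    (heq : ∀ m ∈ S, t m = t' m) : Reach L' c S t' := by
  obtain ⟨k, y, h1, h2, h3⟩ := h
  exact ⟨k, y, h1, h2, fun m hm => (h3 m hm).trans (heq m hm)⟩

lemma Reach.zero {S : Finset ℕ} : Reach L' c S (fun _ => 0) :=
  ⟨0, 0, dvd_zero _, by simp, fun m _ => M_zero _ _ _⟩

/-- concatenation of blocks -/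
lemma M_block {k₁ k₂ Y₁ Y₂ : ℕ} (h1 : 2 ^ L' ∣ Y₁) (h2 : Y₂ < 2 ^ k₂) :
    M L' c (k₂ + k₁) (2 ^ k₂ * Y₁ + Y₂) = M L' c k₂ Y₂ + M L' c k₁ Y₁ := by
  rw [M_add, Nat.mul_add_div (by positivity), Nat.div_eq_of_lt h2, add_zero]
  congr 1
  obtain ⟨z, rfl⟩ := h1
  have : 2 ^ k₂ * (2 ^ L' * z) + Y₂ = Y₂ + 2 ^ (k₂ + L') * z := by rw [pow_add]; ring
  rw [this, M_add_mul]

lemma Reach.add {S : Finset ℕ} {t₁ t₂ : ℕ → ZMod 2} (h₁ : Reach L' c S t₁)
    (h₂ : Reach L' c S t₂) : Reach L' c S (fun m => t₁ m + t₂ m) := by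
  obtain ⟨k₁, y₁, hd₁, hlt₁, hv₁⟩ := h₁
  obtain ⟨k₂, y₂, hd₂, hlt₂, hv₂⟩ := h₂
  refine ⟨k₂ + k₁, 2 ^ k₂ * y₁ + y₂, dvd_add (dvd_mul_of_dvd_right hd₁ _) hd₂, ?_, ?_⟩
  · intro m hm
    have a1 := hlt₁ m hm
    have a2 := hlt₂ m hm
    rw [pow_add]
    have : m * (2 ^ k₂ * y₁ + y₂) = 2 ^ k₂ * (m * y₁) + m * y₂ := by ring
    rw [this]
    have h3 : 2 ^ k₂ * (m * y₁ + 1) ≤ 2 ^ k₂ * 2 ^ k₁ := Nat.mul_le_mul_left _ a1
    have h4 : 2 ^ k₂ * (m * y₁ + 1) = 2 ^ k₂ * (m * y₁) + 2 ^ k₂ := by ring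
    omega
  · intro m hm
    have : m * (2 ^ k₂ * y₁ + y₂) = 2 ^ k₂ * (m * y₁) + m * y₂ := by ring
    rw [this, M_block _ (hlt₂ m hm), hv₁ m hm, hv₂ m hm, add_comm]
    exact dvd_mul_of_dvd_right (dvd_trans (pow_dvd_pow 2 (Nat.le_succ L')) hd₁) _

/-- the differences `g_m(⌊m y / 2 ^ α⌋)` -/
def gam (L' c K α y m : ℕ) : ZMod 2 :=
  M L' c K (m * y / 2 ^ α + 2 ^ L' * m) + M L' c K (m * y / 2 ^ α)

lemma reach_gam (S : Finset ℕ) (K α y : ℕ)
    (hK : ∀ m ∈ S, m * (2 ^ (L' + 1) * y + 2 ^ (α + (L' + 1) + L')) < 2 ^ (α + (L' + 1) + K)) :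
    Reach L' c S (gam L' c K α y) := by
  have r1 : Reach L' c S
      (fun m => M L' c (α + (L' + 1) + K) (m * (2 ^ (L' + 1) * y + 2 ^ (α + (L' + 1) + L')))) :=
    ⟨α + (L' + 1) + K, 2 ^ (L' + 1) * y + 2 ^ (α + (L' + 1) + L'),
      dvd_add (dvd_mul_right _ _) (pow_dvd_pow 2 (by omega)), hK, fun m _ => rfl⟩
  have r2 : Reach L' c S (fun m => M L' c (α + (L' + 1) + K) (m * (2 ^ (L' + 1) * y))) := by
    refine ⟨α + (L' + 1) + K, 2 ^ (L' + 1) * y, dvd_mul_right _ _, ?_, fun m _ => rfl⟩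
    intro m hm
    refine lt_of_le_of_lt (Nat.mul_le_mul_left _ (Nat.le_add_right _ _)) (hK m hm)
  refine (r1.add r2).congr ?_
  intro m _
  have e1 : m * (2 ^ (L' + 1) * y + 2 ^ (α + (L' + 1) + L')) =
      m * (2 ^ (L' + 1) * y) + 2 ^ (α + (L' + 1) + L') * m := by ring
  have e2 : m * (2 ^ (L' + 1) * y) / 2 ^ (α + (L' + 1)) = m * y / 2 ^ α := by
    have : m * (2 ^ (L' + 1) * y) = 2 ^ (L' + 1) * (m * y) := by ring
    have h2 : 2 ^ (α + (L' + 1)) = 2 ^ (L' + 1) * 2 ^ α := by rw [add_comm α, pow_add]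
    rw [this, h2, Nat.mul_div_mul_left _ _ (by positivity)]
  simp only [gam]
  rw [e1, M_diff, e2]

/-- a vector that is `1` at `n`, and `0` at all `m` that are not multiples of `n` -/
lemma reach_jump (hc : c < 2 ^ (L' + 1)) (S : Finset ℕ) {n : ℕ} (hn : n % 2 = 1) :
    ∃ J : ℕ → ZMod 2, Reach L' c S J ∧ J n = 1 ∧ ∀ m ∈ S, ¬ n ∣ m → J m = 0 := by
  obtain ⟨b, ρ, hρ, hch⟩ := change (L' := L') (c := c) hc hn
  have hb : 0 < 2 ^ b := by positivity
  -- choose `u` coprime to `n` with `u - 1 ≡ ρ`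
  obtain ⟨l, _, hl⟩ := exists_hit b 0 n ρ hn hρ
  rw [zero_add] at hl
  set w := (l + 4 * 2 ^ b) * n with hw
  have hn0 : 0 < n := by omega
  have hwρ : w % 2 ^ b = ρ := by
    have : w = l * n + 2 ^ b * (4 * n) := by rw [hw]; ring
    rw [this, Nat.add_mul_mod_self_left, hl]
  have hw4 : 4 ≤ w := by
    rw [hw]
    have h1 : 4 * 1 ≤ (l + 4 * 2 ^ b) * n := Nat.mul_le_mul (by omega) hn0
    omega
  have hnw : n ∣ w := ⟨_, mul_comm _ _⟩
  have hcop : Nat.Coprime n (w + 1) := by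
    obtain ⟨z, hz⟩ := hnw
    rw [hz]
    simp
  -- choose `α` large
  obtain ⟨α, hα⟩ : ∃ α, n * (S.sup id + 1) < 2 ^ α := ⟨_, Nat.lt_two_pow_self⟩
  have hSα : ∀ m ∈ S, n * m < 2 ^ α := by
    intro m hm
    have : m ≤ S.sup id := Finset.le_sup (f := id) hm
    exact lt_of_le_of_lt (Nat.mul_le_mul_left _ (by omega)) hα
  have hnα : n < 2 ^ α := by
    refine lt_of_le_of_lt ?_ hα
    exact Nat.le_mul_of_pos_right _ (by omega)
  have hA : 0 < 2 ^ α := by positivity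
  -- `y` = least with `n * y ≥ (w + 1) * 2 ^ α`
  obtain ⟨y, hy1, hy2⟩ : ∃ y, n * y < (w + 1) * 2 ^ α ∧ (w + 1) * 2 ^ α ≤ n * (y + 1) := by
    refine ⟨((w + 1) * 2 ^ α - 1) / n, ?_, ?_⟩
    · have h1 := Nat.mul_div_le ((w + 1) * 2 ^ α - 1) n
      have h2 : 0 < (w + 1) * 2 ^ α := by positivity
      omega
    · have h1 := Nat.lt_mul_div_succ ((w + 1) * 2 ^ α - 1) hn0
      omega
  obtain ⟨K₀, hK₀⟩ : ∃ K₀, (S.sup id + 1) * (2 ^ (L' + 1) * (y + 1) + 2 ^ (α + (L' + 1) + L')) <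
      2 ^ K₀ := ⟨_, Nat.lt_two_pow_self⟩
  have hK : ∀ z ≤ y + 1, ∀ m ∈ S, m * (2 ^ (L' + 1) * z + 2 ^ (α + (L' + 1) + L')) <
      2 ^ (α + (L' + 1) + (K₀ + 2)) := by
    intro z hz m hm
    have hms : m ≤ S.sup id := Finset.le_sup (f := id) hm
    calc m * (2 ^ (L' + 1) * z + 2 ^ (α + (L' + 1) + L'))
        ≤ (S.sup id + 1) * (2 ^ (L' + 1) * (y + 1) + 2 ^ (α + (L' + 1) + L')) := by
          apply Nat.mul_le_mul (by omega)
          have := Nat.mul_le_mul_left (2 ^ (L' + 1)) hz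
          omega
      _ < 2 ^ K₀ := hK₀
      _ ≤ _ := Nat.pow_le_pow_right (by norm_num) (by omega)
  have R1 := reach_gam (c := c) S (K₀ + 2) α (y + 1) (hK _ le_rfl)
  have R2 := reach_gam (c := c) S (K₀ + 2) α y (hK _ (by omega))
  refine ⟨_, R1.add R2, ?_, ?_⟩
  · -- value at `n`
    have q1 : n * (y + 1) / 2 ^ α = w + 1 := by
      apply Nat.div_eq_of_lt_le hy2
      have : (w + 1 + 1) * 2 ^ α = (w + 1) * 2 ^ α + 2 ^ α := by ring
      have h4 : n * (y + 1) = n * y + n := by ring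
      omega
    have q2 : n * y / 2 ^ α = w := by
      apply Nat.div_eq_of_lt_le _ hy1
      have : (w + 1) * 2 ^ α = w * 2 ^ α + 2 ^ α := by ring
      have h4 : n * (y + 1) = n * y + n := by ring
      omega
    simp only [gam, q1, q2]
    have := hch (M L' c) M_fam K₀ w hwρ hw4
    generalize M L' c (K₀ + 2) (w + 1 + 2 ^ L' * n) + M L' c (K₀ + 2) (w + 1) = A1 at *
    generalize M L' c (K₀ + 2) (w + 2 ^ L' * n) + M L' c (K₀ + 2) w = A2 at *
    revert this A1 A2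
    decide
  · intro m hm hnd
    have hq : m * (y + 1) / 2 ^ α = m * y / 2 ^ α := by
      by_contra hne
      apply hnd
      -- a multiple of `2 ^ α` in `(m y, m (y+1)]`
      set z := m * (y + 1) / 2 ^ α with hz
      have z1 : z * 2 ^ α ≤ m * (y + 1) := Nat.div_mul_le_self _ _
      have z2 : m * y < z * 2 ^ α := by
        have hle : m * y / 2 ^ α ≤ z := Nat.div_le_div_right (Nat.mul_le_mul_left _ (by omega))
        have hlt : m * y / 2 ^ α < z := lt_of_le_of_ne hle (Ne.symm hne)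
        exact (Nat.div_lt_iff_lt_mul hA).mp hlt
      -- compare `m * (w + 1)` and `n * z`
      have hmn := hSα m hm
      have e1 : m * ((w + 1) * 2 ^ α) ≤ m * (n * (y + 1)) := Nat.mul_le_mul_left _ hy2
      have e2 : m * (n * y) ≤ m * ((w + 1) * 2 ^ α) := Nat.mul_le_mul_left _ hy1.le
      have e3 : n * (z * 2 ^ α) ≤ n * (m * (y + 1)) := Nat.mul_le_mul_left _ z1
      have e4 : n * (m * y) ≤ n * (z * 2 ^ α) := Nat.mul_le_mul_left _ z2.le
      have f1 : m * (n * (y + 1)) = n * m * y + n * m := by ring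
      have f2 : m * (n * y) = n * m * y := by ring
      have f3 : n * (m * (y + 1)) = n * m * y + n * m := by ring
      have f4 : n * (m * y) = n * m * y := by ring
      have f5 : m * ((w + 1) * 2 ^ α) = (m * (w + 1)) * 2 ^ α := by ring
      have f6 : n * (z * 2 ^ α) = (n * z) * 2 ^ α := by ring
      rw [f1, f5] at e1
      rw [f2, f5] at e2
      rw [f3, f6] at e3
      rw [f4, f6] at e4
      have heq : m * (w + 1) = n * z := by
        rcases lt_trichotomy (m * (w + 1)) (n * z) with h | h | h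
        · exfalso
          have : (m * (w + 1) + 1) * 2 ^ α ≤ n * z * 2 ^ α := Nat.mul_le_mul_right _ h
          have g : (m * (w + 1) + 1) * 2 ^ α = m * (w + 1) * 2 ^ α + 2 ^ α := by ring
          omega
        · exact h
        · exfalso
          have : (n * z + 1) * 2 ^ α ≤ m * (w + 1) * 2 ^ α := Nat.mul_le_mul_right _ h
          have g : (n * z + 1) * 2 ^ α = n * z * 2 ^ α + 2 ^ α := by ring
          omega
      exact hcop.dvd_of_dvd_mul_right ⟨z, heq⟩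
    simp only [gam, hq]
    exact zmod2_add_self _

/-- all bit vectors are realised -/
lemma reach_all (hc : c < 2 ^ (L' + 1)) (S : Finset ℕ) (hS : ∀ m ∈ S, m % 2 = 1)
    (t : ℕ → ZMod 2) : Reach L' c S t := by
  obtain ⟨N, hN⟩ : ∃ N, ∀ m ∈ S, m < N := ⟨S.sup id + 1, fun m hm => by
    have : m ≤ S.sup id := Finset.le_sup (f := id) hm
    omega⟩
  have key : ∀ j, ∀ t : ℕ → ZMod 2, (∀ m ∈ S, m + j < N → t m = 0) → Reach L' c S t := by
    intro j
    induction j with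
    | zero =>
      intro t ht
      refine Reach.zero.congr ?_
      intro m hm
      exact (ht m hm (by simpa using hN m hm)).symm
    | succ j ih =>
      intro t ht
      by_cases hex : ∃ n ∈ S, n + j + 1 = N ∧ t n ≠ 0
      · obtain ⟨n, hnS, hnN, htn⟩ := hex
        obtain ⟨J, hJ, hJn, hJ0⟩ := reach_jump hc S (hS n hnS)
        have h1 : Reach L' c S (fun m => t m + J m) := by
          apply ih
          intro m hm hmj
          rcases lt_trichotomy m n with h | h | h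
          · rw [ht m hm (by omega), hJ0 m hm, add_zero]
            intro hdvd
            have := Nat.le_of_dvd (by have := hS m hm; omega) hdvd
            omega
          · subst h
            rw [hJn]
            revert htn
            generalize t m = x
            revert x
            decide
          · omega
        refine (h1.add hJ).congr ?_
        intro m _
        rw [add_assoc, zmod2_add_self, add_zero]
      · apply ih
        intro m hm hmj
        rcases Nat.lt_or_ge (m + (j + 1)) N with h | h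
        · exact ht m hm h
        · by_contra hne
          exact hex ⟨m, hm, by omega, hne⟩
  apply key N
  intro m _ h
  omega

/-- **independence** -/
theorem indep (hc : c < 2 ^ (L' + 1)) {ε : ℕ → ZMod 2} (H : Rec L' c ε) (S : Finset ℕ)
    (hS : ∀ m ∈ S, m % 2 = 1) (τ : ℕ → ZMod 2) (r₀ : ℕ) (hr : r₀ < 2 ^ (L' + 1)) :
    ∃ d, 0 < d ∧ d % 2 ^ (L' + 1) = r₀ ∧ ∀ m ∈ S, ε (m * d) = τ m := by
  -- bottom block
  obtain ⟨j, hj⟩ : ∃ j, (S.sup id + 1) * r₀ + (L' + 1) < 2 ^ j ∧ L' + 1 ≤ j := by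
    refine ⟨(S.sup id + 1) * r₀ + (L' + 1), Nat.lt_two_pow_self, by omega⟩
  have hbot : ∀ m ∈ S, m * r₀ < 2 ^ j := by
    intro m hm
    have : m ≤ S.sup id := Finset.le_sup (f := id) hm
    have h2 : m * r₀ ≤ (S.sup id + 1) * r₀ := Nat.mul_le_mul_right _ (by omega)
    omega
  obtain ⟨k, y, hy, hylt, hyv⟩ := reach_all hc S hS
    (fun m => τ m + ε (m * 2 ^ (L' + 1)) + M L' c j (m * r₀))
  refine ⟨2 ^ (j + k) * 2 ^ (L' + 1) + (2 ^ j * y + r₀), by positivity, ?_, ?_⟩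
  · have hdy : (2 ^ (L' + 1)) ∣ 2 ^ (j + k) * 2 ^ (L' + 1) + 2 ^ j * y :=
      dvd_add (dvd_mul_left _ _) (dvd_mul_of_dvd_right hy _)
    obtain ⟨z, hz⟩ := hdy
    rw [← add_assoc, hz, Nat.mul_add_mod, Nat.mod_eq_of_lt hr]
  · intro m hm
    have hm1 : 0 < m := by have := hS m hm; omega
    have e1 : m * (2 ^ (j + k) * 2 ^ (L' + 1) + (2 ^ j * y + r₀)) =
        2 ^ (j + k) * (m * 2 ^ (L' + 1)) + (2 ^ j * (m * y) + m * r₀) := by ring
    have hlow : 2 ^ j * (m * y) + m * r₀ < 2 ^ (j + k) := by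
      rw [pow_add]
      have h3 : 2 ^ j * (m * y + 1) ≤ 2 ^ j * 2 ^ k := Nat.mul_le_mul_left _ (hylt m hm)
      have h4 : 2 ^ j * (m * y + 1) = 2 ^ j * (m * y) + 2 ^ j := by ring
      have := hbot m hm
      omega
    have hge : 2 ^ (j + k) ≤ 2 ^ (j + k) * (m * 2 ^ (L' + 1)) + (2 ^ j * (m * y) + m * r₀) := by
      have : 2 ^ (j + k) * 1 ≤ 2 ^ (j + k) * (m * 2 ^ (L' + 1)) :=
        Nat.mul_le_mul_left _ (by have : 0 < m * 2 ^ (L' + 1) := by positivity
                                  omega)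
      omega
    rw [e1, H.split (j + k) _ hge, Nat.mul_add_div (by positivity), Nat.div_eq_of_lt hlow,
      add_zero]
    have e2 : M L' c (j + k) (2 ^ (j + k) * (m * 2 ^ (L' + 1)) + (2 ^ j * (m * y) + m * r₀)) =
        M L' c (j + k) (2 ^ j * (m * y) + m * r₀) := by
      have : 2 ^ (j + k) * (m * 2 ^ (L' + 1)) + (2 ^ j * (m * y) + m * r₀) =
          (2 ^ j * (m * y) + m * r₀) + 2 ^ (j + k + L') * (m * 2) := by
        rw [pow_add _ (j + k) L', pow_succ]; ring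
      rw [this, M_add_mul]
    rw [e2, M_block (dvd_mul_of_dvd_right (dvd_trans (pow_dvd_pow 2 (Nat.le_succ L')) hy) _)
      (hbot m hm), hyv m hm]
    show ε (m * 2 ^ (L' + 1)) + (M L' c j (m * r₀) +
      (τ m + ε (m * 2 ^ (L' + 1)) + M L' c j (m * r₀))) = τ m
    generalize ε (m * 2 ^ (L' + 1)) = A1
    generalize M L' c j (m * r₀) = A2
    generalize τ m = A3
    revert A1 A2 A3
    decide

end Pool.Agent.H114.PC
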