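import Mathlib
import Pool.Agent.H114.PC.Diag

/-!
# 2-regularity: a rank criterion for non-regularity, and regularity for patterns of zeros
-/

namespace Pool.Agent.H114.PC

/-- 2-regular sequences of integers: the `ℤ`-module spanned by the subsequences
`(a (2 ^ i d + r))_d`, `0 ≤ r < 2 ^ i`, is finitely generated -/
def TwoRegular (a : ℕ → ℤ) : Prop :=
  (Submodule.span ℤ {s : ℕ → ℤ | ∃ i r : ℕ, r < 2 ^ i ∧ s = fun d => a (2 ^ i * d + r)}).FG

/-- rank criterion -/
lemma not_twoRegular {a : ℕ → ℤ} (L' : ℕ)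
    (hoff : ∀ p q, p % 2 = 1 → q % 2 = 1 → p ≠ q →
      ∃ B K₀ : ℕ, ∀ k, K₀ ≤ k → |a (2 ^ k * p + 2 ^ L' * q)| ≤ B)
    (hdiag : ∀ p, p % 2 = 1 → ∀ T : ℕ, ∃ K₀, ∀ k, K₀ ≤ k →
      (T : ℤ) ≤ a (2 ^ k * p + 2 ^ L' * p)) : ¬ TwoRegular a := by
  intro hreg
  set N := Submodule.span ℤ
    {s : ℕ → ℤ | ∃ i r : ℕ, r < 2 ^ i ∧ s = fun d => a (2 ^ i * d + r)} with hN
  have : Module.Finite ℤ N := Module.Finite.iff_fg.mpr hreg
  set R := Module.finrank ℤ N with hR
  let P : Fin (R + 1) → ℕ := fun i => 2 * (i : ℕ) + 1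
  have hPodd : ∀ i, P i % 2 = 1 := fun i => by simp only [P]; omega
  have hPinj : ∀ i j, i ≠ j → P i ≠ P j := by
    intro i j hij h
    apply hij
    apply Fin.ext
    simp only [P] at h
    omega
  have hoff' : ∀ x : Fin (R + 1) × Fin (R + 1), ∃ B K₀ : ℕ, x.1 ≠ x.2 → ∀ k, K₀ ≤ k →
      |a (2 ^ k * P x.1 + 2 ^ L' * P x.2)| ≤ B := by
    intro x
    by_cases hx : x.1 = x.2
    · exact ⟨0, 0, fun h => absurd hx h⟩
    · obtain ⟨B, K, h⟩ := hoff _ _ (hPodd x.1) (hPodd x.2) (hPinj _ _ hx)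
      exact ⟨B, K, fun _ => h⟩
  choose Bf Kf hf using hoff'
  set B := ∑ x, Bf x with hB
  set T := (R + 1) * B + 1 with hT
  have hdiag' : ∀ i : Fin (R + 1), ∃ K₀, ∀ k, K₀ ≤ k →
      (T : ℤ) ≤ a (2 ^ k * P i + 2 ^ L' * P i) := fun i => hdiag _ (hPodd i) T
  choose Kd hKd using hdiag'
  set k := ∑ x, Kf x + ∑ i, Kd i + (L' + 2 * (R + 1)) with hk
  have hkf : ∀ x, Kf x ≤ k := by
    intro x
    have := Finset.single_le_sum (f := Kf) (fun _ _ => Nat.zero_le _) (Finset.mem_univ x)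
    omega
  have hkd : ∀ i, Kd i ≤ k := by
    intro i
    have := Finset.single_le_sum (f := Kd) (fun _ _ => Nat.zero_le _) (Finset.mem_univ i)
    omega
  have hsmall : ∀ i, 2 ^ L' * P i < 2 ^ k := by
    intro i
    calc 2 ^ L' * P i < 2 ^ L' * 2 ^ (2 * (R + 1)) := by
          apply Nat.mul_lt_mul_of_pos_left _ (by positivity)
          calc P i < 2 * (R + 1) := by simp only [P]; have := i.2; omega
            _ < 2 ^ (2 * (R + 1)) := Nat.lt_two_pow_self
      _ = 2 ^ (L' + 2 * (R + 1)) := (pow_add _ _ _).symm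
      _ ≤ 2 ^ k := Nat.pow_le_pow_right (by norm_num) (by omega)
  let s : Fin (R + 1) → N := fun i =>
    ⟨fun d => a (2 ^ k * d + 2 ^ L' * P i),
      Submodule.subset_span ⟨k, 2 ^ L' * P i, hsmall i, rfl⟩⟩
  have hli : LinearIndependent ℤ s := by
    rw [Fintype.linearIndependent_iff]
    intro g hg
    have hev : ∀ j, ∑ i, g i * a (2 ^ k * P j + 2 ^ L' * P i) = 0 := by
      intro j
      have h1 := congrArg (fun w : N => (w : ℕ → ℤ) (P j)) hg
      simpa [s, Finset.sum_apply] using h1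
    obtain ⟨j, _, hj⟩ := Finset.exists_max_image Finset.univ (fun i => |g i|)
      ⟨0, Finset.mem_univ _⟩
    have hj' : ∀ i, |g i| ≤ |g j| := fun i => hj i (Finset.mem_univ i)
    have h2 := hev j
    rw [← Finset.add_sum_erase _ _ (Finset.mem_univ j)] at h2
    have h3 : |g j * a (2 ^ k * P j + 2 ^ L' * P j)| ≤ |g j| * ((R + 1) * B) := by
      have h4 : g j * a (2 ^ k * P j + 2 ^ L' * P j) =
          -∑ i ∈ Finset.univ.erase j, g i * a (2 ^ k * P j + 2 ^ L' * P i) := by linarith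
      rw [h4, abs_neg]
      refine le_trans (Finset.abs_sum_le_sum_abs _ _) ?_
      have h5 : ∀ i ∈ Finset.univ.erase j,
          |g i * a (2 ^ k * P j + 2 ^ L' * P i)| ≤ |g j| * (B : ℤ) := by
        intro i hi
        rw [abs_mul]
        have h6 := hf (j, i) (Finset.ne_of_mem_erase hi).symm k (hkf _)
        have h7 : (Bf (j, i) : ℤ) ≤ B := by
          have := Finset.single_le_sum (f := Bf) (fun _ _ => Nat.zero_le _)
            (Finset.mem_univ (j, i))
          exact_mod_cast this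
        exact mul_le_mul (hj' i) (le_trans h6 h7) (abs_nonneg _) (abs_nonneg _)
      refine le_trans (Finset.sum_le_sum h5) ?_
      rw [Finset.sum_const, nsmul_eq_mul]
      have h8 : ((Finset.univ.erase j).card : ℤ) ≤ R + 1 := by
        have := Finset.card_erase_le (s := (Finset.univ : Finset (Fin (R + 1)))) (a := j)
        rw [Finset.card_univ, Fintype.card_fin] at this
        exact_mod_cast this
      have h9 : (0 : ℤ) ≤ |g j| * (B : ℤ) := by positivity
      nlinarith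
    rw [abs_mul] at h3
    have h10 := hKd j k (hkd j)
    have h11 : (T : ℤ) ≤ |a (2 ^ k * P j + 2 ^ L' * P j)| := le_trans h10 (le_abs_self _)
    have hTc : (T : ℤ) = (R + 1) * B + 1 := by rw [hT]; push_cast; ring
    have h12 : |g j| ≤ 0 := by
      have h13 : |g j| * (T : ℤ) ≤ |g j| * ((R + 1) * B) :=
        le_trans (mul_le_mul_of_nonneg_left h11 (abs_nonneg _)) h3
      rw [hTc] at h13
      linarith
    intro i
    have := le_trans (hj' i) h12
    exact abs_eq_zero.mp (le_antisymm this (abs_nonneg _))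
  have := hli.fintype_card_le_finrank
  rw [Fintype.card_fin, ← hR] at this
  omega

/-- the sequence `(A_v(0, d))_{d ≥ 1}`, set to `0` at `d = 0` -/
noncomputable def seqZero (v : List ℕ) (d : ℕ) : ℤ :=
  if d = 0 then 0 else ((A v 0 d).toNat : ℤ)

/-- the sequence `(A_v(d))_{d ≥ 1}`, set to `0` at `d = 0` -/
noncomputable def seqSup (v : List ℕ) (d : ℕ) : ℤ :=
  if d = 0 then 0 else ((Asup v d).toNat : ℤ)

lemma toNat_le {x : ℕ∞} {B : ℕ} (h : x ≤ B) : x.toNat ≤ B := by
  have hx : x ≠ ⊤ := ne_top_of_le_ne_top (ENat.natCast_ne_top B) h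
  rw [← ENat.natCast_toNat hx] at h
  exact_mod_cast h

lemma le_toNat {x : ℕ∞} {T : ℕ} (h : (T : ℕ∞) ≤ x) (hx : x ≠ ⊤) : T ≤ x.toNat := by
  rw [← ENat.natCast_toNat hx] at h
  exact_mod_cast h

variable {v : List ℕ}

lemma seqSup_not (hv : IsPattern v) : ¬ TwoRegular (seqSup v) := by
  apply not_twoRegular (v.length - 1)
  · intro p q hp hq hne
    obtain ⟨B, K, h⟩ := Asup_offdiag hv hp hq hne
    refine ⟨B, K, fun k hk => ?_⟩
    have h0 : 2 ^ k * p + 2 ^ (v.length - 1) * q ≠ 0 := by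
      have : 0 < p := by omega
      positivity
    unfold seqSup
    rw [if_neg h0, abs_of_nonneg (by positivity)]
    exact_mod_cast toNat_le (h k hk)
  · intro p hp T
    have hp0 : 0 < p := by omega
    obtain ⟨K, h⟩ := A_diag_sup hv hp0 T
    refine ⟨K, fun k hk => ?_⟩
    have h0 : 0 < 2 ^ k * p + 2 ^ (v.length - 1) * p := by positivity
    unfold seqSup
    rw [if_neg h0.ne']
    exact_mod_cast le_toNat (h k hk) (Asup_lt_top hv h0).ne

lemma seqZero_not (hv : IsPattern v) (h1 : 1 ∈ v) : ¬ TwoRegular (seqZero v) := by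
  apply not_twoRegular (v.length - 1)
  · intro p q hp hq hne
    obtain ⟨B, K, h⟩ := Asup_offdiag hv hp hq hne
    refine ⟨B, K, fun k hk => ?_⟩
    have h0 : 2 ^ k * p + 2 ^ (v.length - 1) * q ≠ 0 := by
      have : 0 < p := by omega
      positivity
    unfold seqZero
    rw [if_neg h0, abs_of_nonneg (by positivity)]
    exact_mod_cast toNat_le (le_trans (le_Asup 0 _) (h k hk))
  · intro p hp T
    have hp0 : 0 < p := by omega
    obtain ⟨K, h⟩ := A_diag_zero hv h1 (p := p) T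
    refine ⟨K, fun k hk => ?_⟩
    have h0 : 0 < 2 ^ k * p + 2 ^ (v.length - 1) * p := by positivity
    unfold seqZero
    rw [if_neg h0.ne']
    exact_mod_cast le_toNat (h k hk) (lt_of_le_of_lt (le_Asup 0 _) (Asup_lt_top hv h0)).ne

/-! ### Patterns of zeros -/

/-- first index at which a family of bits is nonzero -/
noncomputable def fst (f : ℕ → ZMod 2) : ℕ := sInf {l : ℕ | 1 ≤ l ∧ f l ≠ 0}

lemma A_toNat_eq {d B : ℕ} (hv : IsPattern v) (hB : ∃ l, 1 ≤ l ∧ l ≤ B ∧ eps v (l * d) ≠ 0) :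
    (A v 0 d).toNat = fst (fun l => eps v (l * d)) ∧ fst (fun l => eps v (l * d)) ≤ B := by
  obtain ⟨l₀, hl1, hlB, hne⟩ := hB
  set S := {l : ℕ | 1 ≤ l ∧ eps v (l * d) ≠ 0} with hS
  have hmem : fst (fun l => eps v (l * d)) ∈ S := Nat.sInf_mem ⟨l₀, hl1, hne⟩
  have hmin : ∀ l ∈ S, fst (fun l => eps v (l * d)) ≤ l := fun l hl => Nat.sInf_le hl
  refine ⟨?_, le_trans (hmin l₀ ⟨hl1, hne⟩) hlB⟩
  have hA : A v 0 d = (fst (fun l => eps v (l * d)) : ℕ∞) := by
    apply le_antisymm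
    · apply sInf_le
      refine ⟨_, rfl, hmem.1, ?_⟩
      rw [← eps_eq_iff, zero_add, hv.rec.zero]
      exact hmem.2
    · apply le_sInf
      rintro x ⟨l, rfl, h1, h2⟩
      rw [← eps_eq_iff, zero_add, hv.rec.zero] at h2
      exact_mod_cast hmin l ⟨h1, h2⟩
  rw [hA]
  simp

lemma seqZero_reg (hv : IsPattern v) (h1 : 1 ∉ v) : TwoRegular (seqZero v) := by
  have hH := hv.rec
  rw [(hv.val_eq_zero).mpr h1] at hH
  set L' := v.length - 1 with hL'
  set ε := eps v with hε
  set N := 2 ^ (L' + 1) with hNdef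
  -- every positive difference has a failure at `2 ^ L'` or `2 ^ (L' + 1)`
  have hfail : ∀ d, 0 < d → ∃ l, 1 ≤ l ∧ l ≤ N ∧ ε (l * d) ≠ 0 := by
    intro d hd
    by_cases hz : ε (2 ^ L' * d) = 0
    · refine ⟨2 ^ (L' + 1), Nat.one_le_two_pow, le_rfl, ?_⟩
      rw [hH.pos _ (by positivity)]
      have e1 : 2 ^ (L' + 1) * d / 2 = 2 ^ L' * d := by
        rw [pow_succ]
        have : 2 ^ L' * 2 * d = 2 * (2 ^ L' * d) := by ring
        rw [this]
        omega
      have e2 : I L' 0 (2 ^ (L' + 1) * d) = 1 := by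
        unfold I
        rw [Nat.mul_mod_right, if_pos rfl]
      rw [e1, e2, hz]
      decide
    · exact ⟨2 ^ L', Nat.one_le_two_pow, Nat.pow_le_pow_right (by norm_num) (by omega), hz⟩
  have hval : ∀ d, 0 < d → seqZero v d = (fst (fun l => ε (l * d)) : ℤ) ∧
      fst (fun l => ε (l * d)) ≤ N := by
    intro d hd
    have := A_toNat_eq hv (hfail d hd)
    refine ⟨?_, this.2⟩
    unfold seqZero
    rw [if_neg hd.ne', this.1]
  have hb : ∀ d, 0 ≤ seqZero v d ∧ seqZero v d ≤ N := by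
    intro d
    rcases Nat.eq_zero_or_pos d with h | h
    · subst h
      simp [seqZero]
    · rw [(hval d h).1]
      exact ⟨by positivity, by exact_mod_cast (hval d h).2⟩
  -- finite parameter space
  let Θ := (Fin (N + 1) → Fin (N + 1)) × (Fin (N + 1) → Fin (2 ^ L') → ZMod 2) × Fin (N + 1)
  have hpL : 0 < 2 ^ L' := by positivity
  let bit : Θ → ℕ → ℕ → ZMod 2 := fun θ d l =>
    if h : l < N + 1 then
      ε (l * d + θ.1 ⟨l, h⟩) + θ.2.1 ⟨l, h⟩ ⟨(l * d + θ.1 ⟨l, h⟩) % 2 ^ L', Nat.mod_lt _ hpL⟩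
    else 0
  let F : Θ → (ℕ → ℤ) := fun θ d => if d = 0 then ((θ.2.2 : ℕ) : ℤ) else (fst (bit θ d) : ℤ)
  have hfin : {s : ℕ → ℤ | ∃ i r : ℕ, r < 2 ^ i ∧
      s = fun d => seqZero v (2 ^ i * d + r)}.Finite := by
    apply Set.Finite.subset (Set.finite_range F)
    rintro s ⟨i, r, hr, rfl⟩
    have hqlt : ∀ l : Fin (N + 1), (l : ℕ) * r / 2 ^ i < N + 1 := by
      intro l
      rw [Nat.div_lt_iff_lt_mul (by positivity)]
      calc (l : ℕ) * r ≤ l * 2 ^ i := Nat.mul_le_mul_left _ hr.le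
        _ < (N + 1) * 2 ^ i := Nat.mul_lt_mul_of_pos_right l.2 (by positivity)
    have hv0 : (seqZero v r).toNat < N + 1 := by
      have := hb r
      omega
    let θ : Θ := (fun l => ⟨(l : ℕ) * r / 2 ^ i, hqlt l⟩,
      fun l y => M L' 0 i (2 ^ i * (y : ℕ) + (l * r) % 2 ^ i), ⟨(seqZero v r).toNat, hv0⟩)
    refine ⟨θ, ?_⟩
    funext d
    rcases Nat.eq_zero_or_pos d with h0 | hd
    · subst h0
      simp only [F, if_true, mul_zero, zero_add]
      have := hb r
      show ((seqZero v r).toNat : ℤ) = seqZero v r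
      omega
    · have hD : 0 < 2 ^ i * d + r := by positivity
      simp only [F, if_neg hd.ne']
      rw [(hval _ hD).1]
      congr 1
      -- the two first failures agree
      have hbit : ∀ l, 1 ≤ l → l ≤ N → bit θ d l = ε (l * (2 ^ i * d + r)) := by
        intro l hl1 hlN
        have hlN' : l < N + 1 := by omega
        simp only [bit, dif_pos hlN', θ]
        have hm : l * (2 ^ i * d + r) = 2 ^ i * (l * d + l * r / 2 ^ i) + l * r % 2 ^ i := by
          have := Nat.div_add_mod (l * r) (2 ^ i)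
          calc l * (2 ^ i * d + r) = 2 ^ i * (l * d) + l * r := by ring
            _ = 2 ^ i * (l * d) + (2 ^ i * (l * r / 2 ^ i) + l * r % 2 ^ i) := by rw [this]
            _ = _ := by ring
        have hlt : l * r % 2 ^ i < 2 ^ i := Nat.mod_lt _ (by positivity)
        set z := l * d + l * r / 2 ^ i with hz
        have hz1 : 1 ≤ z := by
          have : 0 < l * d := by positivity
          exact le_trans this (Nat.le_add_right _ _)
        have hge : 2 ^ i ≤ 2 ^ i * z + l * r % 2 ^ i := by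
          have : 2 ^ i * 1 ≤ 2 ^ i * z := Nat.mul_le_mul_left _ hz1
          omega
        rw [hm, hH.split i _ hge, Nat.mul_add_div (by positivity), Nat.div_eq_of_lt hlt, add_zero]
        congr 1
        have e3 : 2 ^ i * z + l * r % 2 ^ i =
            (2 ^ i * (z % 2 ^ L') + l * r % 2 ^ i) + 2 ^ (i + L') * (z / 2 ^ L') := by
          have := Nat.div_add_mod z (2 ^ L')
          calc 2 ^ i * z + l * r % 2 ^ i
              = 2 ^ i * (2 ^ L' * (z / 2 ^ L') + z % 2 ^ L') + l * r % 2 ^ i := by rw [this]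
            _ = _ := by rw [pow_add]; ring
        rw [e3, M_add_mul]
      obtain ⟨l₀, h01, h0N, h0ne⟩ := hfail _ hD
      set S := {l : ℕ | 1 ≤ l ∧ ε (l * (2 ^ i * d + r)) ≠ 0} with hS
      set S' := {l : ℕ | 1 ≤ l ∧ bit θ d l ≠ 0} with hS'
      have hSne : S.Nonempty := ⟨l₀, h01, h0ne⟩
      have hmem := Nat.sInf_mem hSne
      have hmN : sInf S ≤ N := le_trans (Nat.sInf_le ⟨h01, h0ne⟩) h0N
      have hS'ne : S'.Nonempty := ⟨l₀, h01, by rw [hbit l₀ h01 h0N]; exact h0ne⟩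
      have hmem' := Nat.sInf_mem hS'ne
      show sInf S' = sInf S
      apply le_antisymm
      · apply Nat.sInf_le
        exact ⟨hmem.1, by rw [hbit _ hmem.1 hmN]; exact hmem.2⟩
      · apply Nat.sInf_le
        have hle : sInf S' ≤ N := by
          refine le_trans (Nat.sInf_le (m := sInf S) ⟨hmem.1, ?_⟩) hmN
          rw [hbit _ hmem.1 hmN]; exact hmem.2
        refine ⟨hmem'.1, ?_⟩
        rw [← hbit _ hmem'.1 hle]
        exact hmem'.2
  exact Submodule.fg_span hfin

end Pool.Agent.H114.PC
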