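import Mathlib
import Pool.Agent.H114.PC.Defs
import Pool.Agent.H114.PC.Indep

/-!
# The value set `{A_v(0, d) : d ≥ 1}`
-/

namespace Pool.Agent.H114.PC

variable {v : List ℕ}

lemma A_eq (hv : IsPattern v) {d m₀ : ℕ} (h1 : 1 ≤ m₀) (h2 : eps v (m₀ * d) ≠ 0)
    (h3 : ∀ m, 1 ≤ m → m < m₀ → eps v (m * d) = 0) : A v 0 d = m₀ := by
  apply le_antisymm
  · apply sInf_le
    refine ⟨m₀, rfl, h1, ?_⟩
    rw [← eps_eq_iff, zero_add, hv.rec.zero]
    exact h2
  · apply le_A
    intro l hl
    rw [zero_add, hv.rec.zero]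
    rcases Nat.eq_zero_or_pos l with h0 | h0
    · subst h0
      rw [zero_mul, hv.rec.zero]
    · exact h3 l h0 hl

lemma A_spec (hv : IsPattern v) {d : ℕ} (hd : 0 < d) :
    ∃ m₀ : ℕ, A v 0 d = m₀ ∧ 1 ≤ m₀ ∧ eps v (m₀ * d) ≠ 0 ∧
      ∀ m, 1 ≤ m → m < m₀ → eps v (m * d) = 0 := by
  obtain ⟨B, hB⟩ := bounded hv.val_lt hd
  have h := hB _ hv.rec 0
  push Not at h
  obtain ⟨l, _, hl⟩ := h
  rw [zero_add, hv.rec.zero] at hl
  classical
  have hex : ∃ l, eps v (l * d) ≠ 0 := ⟨l, hl⟩
  have h2 := Nat.find_spec hex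
  have h3 : ∀ m, m < Nat.find hex → eps v (m * d) = 0 := fun m hm =>
    not_not.mp (Nat.find_min hex hm)
  have h1 : 1 ≤ Nat.find hex := by
    rcases Nat.eq_zero_or_pos (Nat.find hex) with h0 | h0
    · rw [h0, zero_mul, hv.rec.zero] at h2
      exact absurd rfl h2
    · exact h0
  exact ⟨Nat.find hex, A_eq hv h1 h2 (fun m _ hm => h3 m hm), h1, h2, fun m _ hm => h3 m hm⟩

section core
variable {L' c : ℕ} {ε : ℕ → ZMod 2}

lemma even_step (H : Rec L' c ε) {m d : ℕ} (hm : 1 ≤ m) (he : m % 2 = 0) (hd : 0 < d) :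
    ε (m * d) = ε (m / 2 * d) + I L' c (m * d) := by
  obtain ⟨k, rfl⟩ : ∃ k, m = 2 * k := ⟨m / 2, by omega⟩
  have hk : 0 < k := by omega
  rw [H.pos _ (by positivity)]
  congr 2
  rw [mul_assoc, Nat.mul_div_cancel_left _ (by norm_num), Nat.mul_div_cancel_left _ (by norm_num)]

lemma all_zero (H : Rec L' c ε) {d m₀ : ℕ} (hd : 0 < d)
    (hodd : ∀ m, m < m₀ → m % 2 = 1 → ε (m * d) = 0)
    (heven : ∀ m, 1 ≤ m → m < m₀ → m % 2 = 0 → I L' c (m * d) = 0) :
    ∀ m, 1 ≤ m → m < m₀ → ε (m * d) = 0 := by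
  intro m
  induction m using Nat.strong_induction_on with
  | _ m ih =>
    intro h1 h2
    rcases Nat.mod_two_eq_zero_or_one m with h | h
    · rw [even_step H h1 h hd, ih (m / 2) (by omega) (by omega) (by omega), heven m h1 h2 h,
        add_zero]
    · exact hodd m h2 h

lemma I_eq_zero {x : ℕ} (h : x % 2 ^ (L' + 1) ≠ c) : I L' c x = 0 := by
  unfold I; rw [if_neg h]

lemma I_eq_one {x : ℕ} (h : x % 2 ^ (L' + 1) = c) : I L' c x = 1 := by
  unfold I; rw [if_pos h]

lemma I_ne {x : ℕ} (h : I L' c x ≠ 0) : x % 2 ^ (L' + 1) = c := by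
  by_contra hc
  exact h (I_eq_zero hc)

/-- an even first failure is in the residue class -/
lemma even_first (H : Rec L' c ε) {d m₀ : ℕ} (hd : 0 < d) (h1 : 1 ≤ m₀) (he : m₀ % 2 = 0)
    (h2 : ε (m₀ * d) ≠ 0) (h3 : ∀ m, 1 ≤ m → m < m₀ → ε (m * d) = 0) :
    (m₀ * d) % 2 ^ (L' + 1) = c := by
  apply I_ne
  rw [even_step H h1 he hd, h3 (m₀ / 2) (by omega) (by omega), zero_add] at h2
  exact h2

/-- no smaller even number is in the class -/
lemma even_min (H : Rec L' c ε) {d m₀ m : ℕ} (hd : 0 < d) (h1 : 1 ≤ m) (he : m % 2 = 0)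
    (hlt : m < m₀) (h3 : ∀ m, 1 ≤ m → m < m₀ → ε (m * d) = 0) :
    (m * d) % 2 ^ (L' + 1) ≠ c := by
  intro hcon
  have := even_step H h1 he hd
  rw [h3 m h1 hlt, h3 (m / 2) (by omega) (by omega), I_eq_one hcon, zero_add] at this
  exact zero_ne_one this

end core

/-! ### patterns containing a `1` -/

lemma val_form (w : List ℕ) (i : ℕ) (hw : ∀ x ∈ w, x < 2) :
    ∃ c', c' % 2 = 1 ∧ c' < 2 ^ (w.length + 1) ∧
      val (w ++ 1 :: List.replicate i 0) = 2 ^ i * c' := by
  refine ⟨Nat.ofDigits 2 (1 :: w.reverse), ?_, ?_, ?_⟩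
  · rw [Nat.ofDigits_cons]
    omega
  · have := Nat.ofDigits_lt_base_pow_length (b := 2) (l := 1 :: w.reverse) (by norm_num)
      (by
        intro x hx
        rcases List.mem_cons.mp hx with h | h
        · omega
        · exact hw x (List.mem_reverse.mp h))
    simpa using this
  · unfold val
    have : (w ++ 1 :: List.replicate i 0).reverse = List.replicate i 0 ++ (1 :: w.reverse) := by
      simp
    rw [this, Nat.ofDigits_append, ofDigits_zero_list (fun x hx => List.eq_of_mem_replicate hx)]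
    simp

/-- the value set for patterns `w 1 0^i` -/
lemma values_one {w : List ℕ} {i : ℕ} (hv : IsPattern (w ++ 1 :: List.replicate i 0)) (m₀ : ℕ) :
    (∃ d, 1 ≤ d ∧ A (w ++ 1 :: List.replicate i 0) 0 d = m₀) ↔
    (m₀ % 2 = 1 ∨ ∃ g u, 1 ≤ g ∧ g ≤ i ∧ u % 2 = 1 ∧ u < 2 ^ (w.length + 1) ∧ m₀ = 2 ^ g * u) := by
  set v := w ++ 1 :: List.replicate i 0 with hvdef
  have hwlt : ∀ x ∈ w, x < 2 := fun x hx => hv.lt x (by rw [hvdef]; simp [hx])
  obtain ⟨c', hc'odd, hc'lt, hcval⟩ := val_form w i hwlt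
  rw [← hvdef] at hcval
  set W := w.length + 1 with hW
  have hL : v.length - 1 + 1 = i + W := by
    rw [← hv.len, hvdef]; simp; omega
  have H := hv.rec
  have hlt := hv.val_lt
  rw [hcval] at H hlt
  set L' := v.length - 1 with hL'
  set ε := eps v with hε
  have hiP : 0 < 2 ^ i := by positivity
  have hWP : 0 < 2 ^ W := by positivity
  have hW2 : 2 ^ W % 2 = 0 := by rw [hW, pow_succ]; omega
  have hpow : 2 ^ (L' + 1) = 2 ^ i * 2 ^ W := by rw [hL, pow_add]
  have hcne : 2 ^ i * c' ≠ 0 := by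
    have : 0 < c' := by omega
    positivity
  constructor
  · rintro ⟨d, hd, hA⟩
    obtain ⟨m₁, hA₁, h1, h2, h3⟩ := A_spec hv hd
    have hm : m₁ = m₀ := by
      rw [hA] at hA₁
      exact_mod_cast hA₁.symm
    subst hm
    rcases Nat.mod_two_eq_zero_or_one m₁ with he | ho
    swap
    · exact Or.inl ho
    right
    have hcl := even_first H hd h1 he h2 h3
    obtain ⟨g, u, hu, hgu⟩ := Nat.exists_eq_two_pow_mul_odd (n := m₁) (by omega)
    have huo : u % 2 = 1 := Nat.odd_iff.mp hu
    have hg1 : 1 ≤ g := by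
      rcases Nat.eq_zero_or_pos g with h0 | h0
      · subst h0
        rw [pow_zero, one_mul] at hgu
        omega
      · exact h0
    -- valuation of `m₁ * d`
    have hmd : m₁ * d = 2 ^ i * (2 ^ W * (m₁ * d / 2 ^ (L' + 1)) + c') := by
      have := Nat.div_add_mod (m₁ * d) (2 ^ (L' + 1))
      rw [hcl] at this
      calc m₁ * d = 2 ^ (L' + 1) * (m₁ * d / 2 ^ (L' + 1)) + 2 ^ i * c' := this.symm
        _ = 2 ^ i * 2 ^ W * (m₁ * d / 2 ^ (L' + 1)) + 2 ^ i * c' := by rw [← hpow]
        _ = _ := by ring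
    set z := m₁ * d / 2 ^ (L' + 1) with hz
    have hodd' : (2 ^ W * z + c') % 2 = 1 := by
      rw [Nat.add_mod, Nat.mul_mod, hW2]; simp [hc'odd]
    have hgi : g ≤ i := by
      by_contra hcon
      push Not at hcon
      obtain ⟨j, rfl⟩ : ∃ j, g = i + 1 + j := ⟨g - i - 1, by omega⟩
      have e1 : m₁ * d = 2 ^ i * (2 * (2 ^ j * u * d)) := by
        rw [hgu, pow_add, pow_add]; ring
      rw [e1] at hmd
      have e2 := Nat.eq_of_mul_eq_mul_left hiP hmd
      omega
    obtain ⟨j, rfl⟩ : ∃ j, i = g + j := ⟨i - g, by omega⟩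
    have hd' : 2 ^ j ∣ d := by
      have e1 : 2 ^ g * (u * d) = 2 ^ g * (2 ^ j * (2 ^ W * z + c')) := by
        calc 2 ^ g * (u * d) = m₁ * d := by rw [hgu]; ring
          _ = _ := by rw [hmd, pow_add]; ring
      have e2 := Nat.eq_of_mul_eq_mul_left (by positivity : 0 < 2 ^ g) e1
      have hcop : Nat.Coprime (2 ^ j) u := by
        apply Nat.Coprime.pow_left
        exact (Nat.coprime_two_left).mpr hu
      exact hcop.dvd_of_dvd_mul_left ⟨_, e2⟩
    obtain ⟨d', hd'⟩ := hd'
    refine ⟨g, u, hg1, hgi, huo, ?_, hgu⟩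
    by_contra hcon
    push Not at hcon
    set u₁ := u % 2 ^ W with hu₁
    have hu₁o : u₁ % 2 = 1 := by
      rw [hu₁, Nat.mod_mod_of_dvd _ (Nat.dvd_of_mod_eq_zero hW2)]; exact huo
    have hu₁lt : u₁ < 2 ^ W := Nat.mod_lt _ hWP
    have hg2 : 2 ^ g % 2 = 0 := by
      obtain ⟨g', rfl⟩ : ∃ g', g = g' + 1 := ⟨g - 1, by omega⟩
      rw [pow_succ]; omega
    apply even_min H hd (m := 2 ^ g * u₁) (m₀ := m₁) (by
        have : 0 < 2 ^ g * u₁ := by
          have : 0 < u₁ := by omega
          positivity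
        exact this) (by rw [Nat.mul_mod, hg2]; simp) (by
        rw [hgu]; exact Nat.mul_lt_mul_of_pos_left (by omega) (by positivity)) h3
    have e1 : m₁ * d = 2 ^ g * u₁ * d + 2 ^ (L' + 1) * (u / 2 ^ W * d') := by
      rw [hpow, pow_add]
      calc m₁ * d = 2 ^ g * (2 ^ W * (u / 2 ^ W) + u % 2 ^ W) * d := by
            rw [Nat.div_add_mod, ← hgu]
        _ = 2 ^ g * u₁ * d + 2 ^ g * 2 ^ W * (u / 2 ^ W) * d := by rw [← hu₁]; ring
        _ = 2 ^ g * u₁ * d + 2 ^ g * 2 ^ W * (u / 2 ^ W) * (2 ^ j * d') := by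
            conv_lhs => rw [hd']
            conv_rhs => rw [hd']
        _ = _ := by ring
    rw [e1, Nat.add_mul_mod_self_left] at hcl
    exact hcl
  · rintro (ho | ⟨g, u, hg1, hgi, huo, hult, rfl⟩)
    · -- odd values
      obtain ⟨d, hd, hdr, hdv⟩ := indep hlt H ((Finset.range (m₀ + 1)).filter (fun m => m % 2 = 1))
        (fun m hm => (Finset.mem_filter.mp hm).2) (fun m => if m = m₀ then 1 else 0) 0
        (by positivity)
      have hdd : 2 ^ (L' + 1) ∣ d := Nat.dvd_of_mod_eq_zero hdr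
      refine ⟨d, hd, A_eq hv (by omega) ?_ ?_⟩
      · rw [← hε, hdv m₀ (by simp [ho]), if_pos rfl]
        exact one_ne_zero
      · apply all_zero H hd
        · intro m hm hmo
          rw [hdv m (by simp [hmo]; omega), if_neg (by omega)]
        · intro m _ _ _
          apply I_eq_zero
          rw [Nat.mod_eq_zero_of_dvd (dvd_mul_of_dvd_right hdd _)]
          exact hcne.symm
    · -- even values
      obtain ⟨l, hl, hlu⟩ := exists_hit W 0 u c' huo hc'lt
      rw [zero_add] at hlu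
      have hlo : l % 2 = 1 := by
        have e1 : (l * u) % 2 ^ W % 2 = (l * u) % 2 :=
          Nat.mod_mod_of_dvd _ (Nat.dvd_of_mod_eq_zero hW2)
        rw [hlu, hc'odd, Nat.mul_mod] at e1
        rcases Nat.mod_two_eq_zero_or_one l with h | h
        · rw [h] at e1; simp at e1
        · exact h
      obtain ⟨j, rfl⟩ : ∃ j, i = g + j := ⟨i - g, by omega⟩
      have hr : 2 ^ j * l < 2 ^ (L' + 1) := by
        rw [hpow, pow_add]
        calc 2 ^ j * l < 2 ^ j * 2 ^ W := Nat.mul_lt_mul_of_pos_left hl (by positivity)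
          _ ≤ 2 ^ g * 2 ^ j * 2 ^ W := by
            rw [mul_assoc]
            exact Nat.le_mul_of_pos_left _ (by positivity)
      obtain ⟨d, hd, hdr, hdv⟩ := indep hlt H
        ((Finset.range (2 ^ g * u)).filter (fun m => m % 2 = 1))
        (fun m hm => (Finset.mem_filter.mp hm).2) (fun _ => 0) (2 ^ j * l) hr
      have hmod : ∀ m, (m * d) % 2 ^ (L' + 1) = (m * (2 ^ j * l)) % 2 ^ (L' + 1) := by
        intro m
        conv_lhs => rw [Nat.mul_mod, hdr]
        conv_rhs => rw [Nat.mul_mod]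
        rw [Nat.mod_eq_of_lt hr]
      have hg2 : 2 ^ g % 2 = 0 := by
        obtain ⟨g', rfl⟩ : ∃ g', g = g' + 1 := ⟨g - 1, by omega⟩
        rw [pow_succ]; omega
      have hup : 0 < u := by omega
      have hpos : 1 ≤ 2 ^ g * u := by
        have : 0 < 2 ^ g * u := by positivity
        exact this
      have heven : (2 ^ g * u) % 2 = 0 := by rw [Nat.mul_mod, hg2]; simp
      have hz : ∀ m, 1 ≤ m → m < 2 ^ g * u → ε (m * d) = 0 := by
        apply all_zero H hd
        · intro m hm hmo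
          exact hdv m (by simp [hmo, hm])
        · intro m hm1 hmlt _
          apply I_eq_zero
          rw [hmod m]
          intro hcon
          -- `2 ^ g ∣ m`
          have hdm := Nat.div_add_mod (m * (2 ^ j * l)) (2 ^ (L' + 1))
          rw [hcon] at hdm
          set z := m * (2 ^ j * l) / 2 ^ (L' + 1)
          have e1 : 2 ^ j * (m * l) = 2 ^ j * (2 ^ g * (2 ^ W * z + c')) := by
            calc 2 ^ j * (m * l) = m * (2 ^ j * l) := by ring
              _ = 2 ^ (L' + 1) * z + 2 ^ (g + j) * c' := hdm.symm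
              _ = _ := by rw [hpow, pow_add]; ring
          have e2 := Nat.eq_of_mul_eq_mul_left (by positivity : 0 < 2 ^ j) e1
          have hcop : Nat.Coprime (2 ^ g) l := by
            apply Nat.Coprime.pow_left
            exact (Nat.coprime_two_left).mpr (Nat.odd_iff.mpr hlo)
          obtain ⟨m', hm'⟩ := hcop.dvd_of_dvd_mul_right ⟨_, e2⟩
          have e3 : 2 ^ g * (m' * l) = 2 ^ g * (2 ^ W * z + c') := by
            rw [← e2, hm']; ring
          have e4 := Nat.eq_of_mul_eq_mul_left (by positivity : 0 < 2 ^ g) e3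
          have e5 : (m' * l) % 2 ^ W = c' := by
            rw [e4, Nat.mul_add_mod, Nat.mod_eq_of_lt hc'lt]
          have e6 : l * m' ≡ l * u [MOD 2 ^ W] := by
            show (l * m') % 2 ^ W = (l * u) % 2 ^ W
            rw [hlu, mul_comm, e5]
          have hcop2 : Nat.gcd (2 ^ W) l = 1 := by
            apply Nat.Coprime.pow_left
            exact (Nat.coprime_two_left).mpr (Nat.odd_iff.mpr hlo)
          have e7 : m' ≡ u [MOD 2 ^ W] := Nat.ModEq.cancel_left_of_coprime hcop2 e6
          have e8 : m' % 2 ^ W = u := by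
            rw [e7]; exact Nat.mod_eq_of_lt hult
          have e9 : u ≤ m' := by rw [← e8]; exact Nat.mod_le _ _
          have := Nat.mul_le_mul_left (2 ^ g) e9
          omega
      refine ⟨d, hd, ?_⟩
      have := A_eq hv hpos ?_ hz
      · rw [this]
      · have g1 : 1 ≤ 2 ^ g * u / 2 := by
          obtain ⟨g', rfl⟩ : ∃ g', g = g' + 1 := ⟨g - 1, by omega⟩
          have e1 : 2 ^ (g' + 1) * u = 2 * (2 ^ g' * u) := by rw [pow_succ]; ring
          rw [e1, Nat.mul_div_cancel_left _ (by norm_num)]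
          have : 0 < 2 ^ g' * u := by positivity
          exact this
        have g2 : (2 ^ g * u * d) % 2 ^ (L' + 1) = 2 ^ (g + j) * c' := by
          rw [hmod]
          have e1 : 2 ^ g * u * (2 ^ j * l) = 2 ^ (g + j) * (l * u) := by rw [pow_add]; ring
          rw [e1, hpow, Nat.mul_mod_mul_left, hlu]
        rw [← hε, even_step H hpos heven hd, hz _ g1 (by omega), zero_add, I_eq_one g2]
        exact one_ne_zero

/-! ### patterns of zeros -/

lemma val_replicate (L : ℕ) : val (List.replicate L 0) = 0 := by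
  unfold val
  apply ofDigits_zero_list
  intro x hx
  exact List.eq_of_mem_replicate (List.mem_reverse.mp hx)

/-- the value set for patterns `0^L` -/
lemma values_zero {L : ℕ} (hL : 1 ≤ L) (m₀ : ℕ) :
    (∃ d, 1 ≤ d ∧ A (List.replicate L 0) 0 d = m₀) ↔
    ((m₀ % 2 = 1 ∧ m₀ < 2 ^ L) ∨ ∃ g, 1 ≤ g ∧ g ≤ L ∧ m₀ = 2 ^ g) := by
  set v := List.replicate L 0 with hvdef
  have hv : IsPattern v := by
    constructor
    · rw [hvdef]; intro h
      have := congrArg List.length h
      simp at this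
      omega
    · intro x hx
      left
      exact List.eq_of_mem_replicate hx
  obtain ⟨L', rfl⟩ : ∃ L', L = L' + 1 := ⟨L - 1, by omega⟩
  have hlen : v.length - 1 = L' := by rw [hvdef]; simp
  have H := hv.rec
  have hlt := hv.val_lt
  rw [hvdef, val_replicate, ← hvdef, hlen] at H hlt
  set ε := eps v with hε
  have hLP : 0 < 2 ^ (L' + 1) := by positivity
  have hLe : 2 ^ (L' + 1) % 2 = 0 := by rw [pow_succ]; omega
  constructor
  · rintro ⟨d, hd, hA⟩
    obtain ⟨m₁, hA₁, h1, h2, h3⟩ := A_spec hv hd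
    have hm : m₁ = m₀ := by
      rw [hA] at hA₁
      exact_mod_cast hA₁.symm
    subst hm
    have hle : m₁ ≤ 2 ^ (L' + 1) := by
      by_contra hcon
      push Not at hcon
      exact even_min H hd (m := 2 ^ (L' + 1)) hLP hLe hcon h3 (Nat.mul_mod_right _ _)
    rcases Nat.mod_two_eq_zero_or_one m₁ with he | ho
    · right
      have hcl := even_first H hd h1 he h2 h3
      obtain ⟨g, u, hu, hgu⟩ := Nat.exists_eq_two_pow_mul_odd (n := m₁) (by omega)
      have huo : u % 2 = 1 := Nat.odd_iff.mp hu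
      have hg1 : 1 ≤ g := by
        rcases Nat.eq_zero_or_pos g with h0 | h0
        · subst h0
          rw [pow_zero, one_mul] at hgu
          omega
        · exact h0
      have hg2 : 2 ^ g % 2 = 0 := by
        obtain ⟨g', rfl⟩ : ∃ g', g = g' + 1 := ⟨g - 1, by omega⟩
        rw [pow_succ]; omega
      have hu1 : u = 1 := by
        by_contra hne
        have hu3 : 1 < u := by omega
        apply even_min H hd (m := 2 ^ g) (m₀ := m₁) Nat.one_le_two_pow hg2 (by
          rw [hgu]
          have : 0 < 2 ^ g := by positivity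
          nlinarith) h3
        apply Nat.mod_eq_zero_of_dvd
        have hdvd : 2 ^ (L' + 1) ∣ u * (2 ^ g * d) := by
          have := Nat.dvd_of_mod_eq_zero hcl
          rw [hgu] at this
          have e : 2 ^ g * u * d = u * (2 ^ g * d) := by ring
          rwa [e] at this
        have hcop : Nat.Coprime (2 ^ (L' + 1)) u := by
          apply Nat.Coprime.pow_left
          exact (Nat.coprime_two_left).mpr hu
        exact hcop.dvd_of_dvd_mul_left hdvd
      subst hu1
      rw [mul_one] at hgu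
      refine ⟨g, hg1, ?_, hgu⟩
      rw [hgu] at hle
      exact (Nat.pow_le_pow_iff_right (by norm_num : 1 < 2)).mp hle
    · left
      refine ⟨ho, ?_⟩
      rcases Nat.lt_or_ge m₁ (2 ^ (L' + 1)) with h | h
      · exact h
      · have : m₁ = 2 ^ (L' + 1) := le_antisymm hle h
        omega
  · rintro (⟨ho, hm⟩ | ⟨g, hg1, hgL, rfl⟩)
    · obtain ⟨d, hd, hdr, hdv⟩ := indep hlt H ((Finset.range (m₀ + 1)).filter (fun m => m % 2 = 1))
        (fun m hm => (Finset.mem_filter.mp hm).2) (fun m => if m = m₀ then 1 else 0) 1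
        (by omega)
      refine ⟨d, hd, A_eq hv (by omega) ?_ ?_⟩
      · rw [← hε, hdv m₀ (by simp [ho]), if_pos rfl]
        exact one_ne_zero
      · apply all_zero H hd
        · intro m hm hmo
          rw [hdv m (by simp [hmo]; omega), if_neg (by omega)]
        · intro m hm1 hmlt _
          apply I_eq_zero
          rw [Nat.mul_mod, hdr, mul_one, Nat.mod_mod, Nat.mod_eq_of_lt (by omega)]
          omega
    · obtain ⟨j, hj⟩ : ∃ j, L' + 1 = g + j := ⟨L' + 1 - g, by omega⟩
      have hpow : 2 ^ (L' + 1) = 2 ^ g * 2 ^ j := by rw [hj, pow_add]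
      have hgP : 1 < 2 ^ g := Nat.one_lt_two_pow (by omega)
      have hr : 2 ^ j < 2 ^ (L' + 1) := by
        rw [hpow]
        have : 0 < 2 ^ j := by positivity
        nlinarith
      obtain ⟨d, hd, hdr, hdv⟩ := indep hlt H
        ((Finset.range (2 ^ g)).filter (fun m => m % 2 = 1))
        (fun m hm => (Finset.mem_filter.mp hm).2) (fun _ => 0) (2 ^ j) hr
      have hmod : ∀ m, (m * d) % 2 ^ (L' + 1) = (m * 2 ^ j) % 2 ^ (L' + 1) := by
        intro m
        conv_lhs => rw [Nat.mul_mod, hdr]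
        conv_rhs => rw [Nat.mul_mod]
        rw [Nat.mod_eq_of_lt hr]
      have hz : ∀ m, 1 ≤ m → m < 2 ^ g → ε (m * d) = 0 := by
        apply all_zero H hd
        · intro m hm hmo
          exact hdv m (by simp [hmo, hm])
        · intro m hm1 hmlt _
          apply I_eq_zero
          have hlt' : m * 2 ^ j < 2 ^ (L' + 1) := by
            rw [hpow]; exact Nat.mul_lt_mul_of_pos_right hmlt (by positivity)
          rw [hmod m, Nat.mod_eq_of_lt hlt']
          have : 0 < m * 2 ^ j := by positivity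
          omega
      have heven : 2 ^ g % 2 = 0 := by
        obtain ⟨g', rfl⟩ : ∃ g', g = g' + 1 := ⟨g - 1, by omega⟩
        rw [pow_succ]; omega
      refine ⟨d, hd, ?_⟩
      have := A_eq hv (Nat.one_le_two_pow (n := g)) ?_ hz
      · rw [this]
      · rw [← hε, even_step H Nat.one_le_two_pow heven hd, hz _ (by omega) (by omega), zero_add,
          I_eq_one]
        · exact one_ne_zero
        · rw [hmod, ← hpow, Nat.mod_self]

end Pool.Agent.H114.PC
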